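import Pool.Agent.H54.Sw.Count

/-!
# The drawing of a graph, and vertex covers
-/

namespace Pool.Agent.H54.Sw

open Finset

theorem dfc_not (m : Prop) (x y : Bool) : dfc m (!x) (!y) = dfc m x y := by
  by_cases h : m
  · rw [dfc_of h, dfc_of h]
    exact ind_congr (by cases x <;> cases y <;> simp)
  · rw [dfc_of_not h, dfc_of_not h]
    exact ind_congr (by cases x <;> cases y <;> simp)

namespace Data

variable (G : Data)

theorem N_ge : 2 ≤ G.N := by
  unfold N
  have := G.w_pos
  have h1 : G.w * 1 ≤ G.w * (G.n + 1) := Nat.mul_le_mul_left _ (by omega)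
  omega

/-- the grid drawing of the graph -/
def grid : Grid where
  N := G.N
  hN := G.N_ge
  miss := fun b i j => if b then G.missV i j else G.missH j i

@[simp] theorem grid_N : G.grid.N = G.N := rfl
theorem miss_true (i j : ℕ) : G.grid.miss true i j = G.missV i j := rfl
theorem miss_false (i j : ℕ) : G.grid.miss false i j = G.missH j i := rfl

theorem near {a b d e : ℕ} (hd : d < 3) (he : e < 3) (h : G.c a + d = G.c b + e) :
    a = b ∧ d = e := by
  rcases Nat.lt_trichotomy d e with h1 | h1 | h1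
  · exact absurd (by omega : G.c b + (e - d) = G.c a) (G.c_ne_near (by omega) (by omega))
  · subst h1
    exact ⟨G.c_inj (by omega), rfl⟩
  · exact absurd (by omega : G.c a + (d - e) = G.c b) (G.c_ne_near (by omega) (by omega))

theorem hb1 : ∀ b j, ¬ G.grid.miss b G.grid.N j := by
  intro b j h
  rw [grid_N] at h
  cases b
  · obtain ⟨a, ha, h1, _⟩ := (h : G.missH j G.N)
    have := G.c_le_N ha
    omega
  · obtain ⟨a, ha, _, _, h1, _⟩ := (h : G.missV G.N j)
    have := G.c_le_N ha
    omega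

theorem hnice : ∀ i j, G.grid.miss true i j → G.grid.miss false j i → i + 1 < G.grid.N ∧ 2 ≤ j ∧
      ¬ G.grid.miss true (i + 1) j ∧ ¬ G.grid.miss false j (i + 1) ∧
      ¬ G.grid.miss true (i + 1) (j - 1) := by
  intro i j h1 h2
  simp only [miss_true, miss_false, grid_N] at *
  obtain ⟨a, ha, b, hb, e1, e2, e3⟩ := h1
  obtain ⟨a', ha', f1, f2⟩ := h2
  have haa : a = a' ∧ i = G.c a' := by
    rcases f2 with f2 | f2
    · exact ⟨G.c_inj (e1.symm.trans f2), f2⟩
    · have := G.near (a := a) (b := a') (d := 1) (e := 0) (by omega) (by omega) (by omega)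
      omega
  obtain ⟨rfl, hi⟩ := haa
  have hN := G.c_le_N ha
  have hge := G.c_ge a
  refine ⟨by omega, by omega, ?_, ?_, ?_⟩
  · rintro ⟨a'', _, _, _, g1, _⟩
    have := G.near (a := a) (b := a'') (d := 1) (e := 0) (by omega) (by omega) (by omega)
    omega
  · rintro ⟨a'', _, g1, g2⟩
    have : a = a'' := G.c_inj (f1.symm.trans g1)
    subst this
    omega
  · rintro ⟨a'', _, _, _, g1, _⟩
    have := G.near (a := a) (b := a'') (d := 1) (e := 0) (by omega) (by omega) (by omega)
    omega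

/-- the maximal number of switches of the gaps -/
noncomputable def MX : ℕ :=
  ∑ b : Bool, ∑ i ∈ Finset.Icc 1 G.N, ∑ j ∈ Finset.Ico 1 G.N, Grid.mx (G.grid.miss b i j)

section

variable {G} {E : List Seg} (hE : ∀ e, e ∈ E ↔ G.grid.IsE e)

include hE

theorem L_mem (b : Bool) {i : ℕ} (h1 : 1 ≤ i) (h2 : i ≤ G.N) : G.grid.L b i ∈ E :=
  (hE _).2 ⟨b, _, _, _, Grid.L_EV G.grid b h1 h2, rfl⟩

theorem D_mem (b : Bool) {i j : ℕ} (h1 : 1 ≤ i) (h2 : i ≤ G.N) (h3 : 1 ≤ j) (h4 : j < G.N)
    (h5 : ¬ G.grid.miss b i j) : Grid.D b i j ∈ E := by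
  refine (hE _).2 ⟨!b, _, _, _, Or.inr (Or.inl ⟨i, j, h1, h2, h3, h4, ?_, rfl, rfl, rfl⟩), rfl⟩
  rwa [Bool.not_not]

omit hE in
theorem L_ne (b : Bool) (i j : ℕ) : G.grid.L (!b) j ≠ G.grid.L b i := by
  intro h
  have := (Grid.L_inj h).1
  cases b <;> simp at this

omit hE in
theorem D_ne_L (b : Bool) {i : ℕ} (j : ℕ) (h1 : 1 ≤ i) : Grid.D b i j ≠ G.grid.L b i := by
  have := Grid.X_ne_L (K := G.grid) (b := b) (i := i) (y := 2 * j + 1) h1
  rwa [Grid.X_odd] at this

/-- Number of switches and deficit. -/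
theorem total (σ : Seg → ℕ) (hσ : Set.InjOn σ {e | e ∈ E}) :
    switches E σ + G.deficit (fun i j => decide (σ (G.grid.L false j) < σ (G.grid.L true i))) ≤
      G.MX ∧
    ((∀ b i j, 1 ≤ i → i ≤ G.N → 1 ≤ j → j < G.N → ¬ G.grid.miss b i j →
      (σ (Grid.D b i j) < σ (G.grid.L b i) ↔ ¬ σ (G.grid.L (!b) j) < σ (G.grid.L b i))) →
      switches E σ + G.deficit (fun i j => decide (σ (G.grid.L false j) < σ (G.grid.L true i))) =
        G.MX) := by
  have hne : ∀ b i j, 1 ≤ i → i ≤ G.N → 1 ≤ j → j ≤ G.N →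
      σ (G.grid.L (!b) j) ≠ σ (G.grid.L b i) := by
    intro b i j h1 h2 h3 h4 h
    exact L_ne b i j (hσ (L_mem hE (!b) h3 h4) (L_mem hE b h1 h2) h)
  have hdef : G.deficit (fun i j => decide (σ (G.grid.L false j) < σ (G.grid.L true i))) =
      ∑ b : Bool, ∑ i ∈ Finset.Icc 1 G.N, ∑ j ∈ Finset.Ico 1 G.N,
        dfc (G.grid.miss b i j) (G.grid.sgn σ b i j) (G.grid.sgn σ b i (j + 1)) := by
    rw [Fintype.sum_bool]
    unfold deficit
    congr 1
    refine Finset.sum_congr rfl fun j hj => Finset.sum_congr rfl fun i hi => ?_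
    rw [Finset.mem_Icc] at hj
    rw [Finset.mem_Ico] at hi
    have e : ∀ i, 1 ≤ i → i ≤ G.N → G.grid.sgn σ false j i =
        !(decide (σ (G.grid.L false j) < σ (G.grid.L true i))) := by
      intro i h1 h2
      have := hne false j i hj.1 hj.2 h1 h2
      unfold Grid.sgn
      rw [← decide_not]
      congr 1
      simp only [Bool.not_false, not_lt, eq_iff_iff] at this ⊢
      omega
    rw [e i hi.1 (by omega), e (i + 1) (by omega) (by omega), dfc_not]
    rfl
  have hsw := Grid.switches_eq_sum hE σ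
  rw [grid_N] at hsw
  rw [hdef, hsw]
  unfold MX
  have hgap : ∀ b i j, i ∈ Finset.Icc 1 G.N → j ∈ Finset.Ico 1 G.N → _ := fun b i j hi hj =>
    Grid.gap_count (K := G.grid) σ (b := b) (i := i) (j := j)
      (hne b i j (Finset.mem_Icc.1 hi).1 (Finset.mem_Icc.1 hi).2 (Finset.mem_Ico.1 hj).1
        (Finset.mem_Ico.1 hj).2.le)
      (hne b i (j + 1) (Finset.mem_Icc.1 hi).1 (Finset.mem_Icc.1 hi).2 (by omega)
        (Finset.mem_Ico.1 hj).2)
      (fun hm h => D_ne_L b j (Finset.mem_Icc.1 hi).1 (hσ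
        (D_mem hE b (Finset.mem_Icc.1 hi).1 (Finset.mem_Icc.1 hi).2 (Finset.mem_Ico.1 hj).1
        (Finset.mem_Ico.1 hj).2 hm)
        (L_mem hE b (Finset.mem_Icc.1 hi).1 (Finset.mem_Icc.1 hi).2) h))
  constructor
  · rw [← Finset.sum_add_distrib]
    refine Finset.sum_le_sum fun b _ => ?_
    rw [← Finset.sum_add_distrib]
    refine Finset.sum_le_sum fun i hi => ?_
    rw [← Finset.sum_add_distrib]
    exact Finset.sum_le_sum fun j hj => (hgap b i j hi hj).1
  · intro hD
    rw [← Finset.sum_add_distrib]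
    refine Finset.sum_congr rfl fun b _ => ?_
    rw [← Finset.sum_add_distrib]
    refine Finset.sum_congr rfl fun i hi => ?_
    rw [← Finset.sum_add_distrib]
    refine Finset.sum_congr rfl fun j hj => (hgap b i j hi hj).2 (hD b i j
      (Finset.mem_Icc.1 hi).1 (Finset.mem_Icc.1 hi).2 (Finset.mem_Ico.1 hj).1
      (Finset.mem_Ico.1 hj).2)

omit hE in
theorem deficit_congr {s s' : ℕ → ℕ → Bool}
    (h : ∀ i j, 1 ≤ i → i ≤ G.N → 1 ≤ j → j ≤ G.N → s i j = s' i j) :
    G.deficit s = G.deficit s' := by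
  unfold deficit defV defH
  congr 1
  · refine Finset.sum_congr rfl fun i hi => Finset.sum_congr rfl fun j hj => ?_
    rw [Finset.mem_Icc] at hi
    rw [Finset.mem_Ico] at hj
    rw [h i j hi.1 hi.2 hj.1 hj.2.le, h i (j + 1) hi.1 hi.2 (by omega) hj.2]
  · refine Finset.sum_congr rfl fun j hj => Finset.sum_congr rfl fun i hi => ?_
    rw [Finset.mem_Icc] at hj
    rw [Finset.mem_Ico] at hi
    rw [h i j hi.1 hi.2.le hj.1 hj.2, h (i + 1) j (by omega) hi.2 hj.1 hj.2]

/-- From an order to a vertex cover. -/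
theorem cover_of_order {k : ℕ} (hk : k ≤ G.n) (σ : Seg → ℕ) (hσ : Set.InjOn σ {e | e ∈ E})
    (h : G.MX ≤ switches E σ + (2 * G.nn + 4 * k)) :
    ∃ S : Finset ℕ, G.IsCover S ∧ S.card ≤ k := by
  have h1 := (total hE σ hσ).1
  let α : ℕ → ℕ := fun i => if 1 ≤ i ∧ i ≤ G.N then 2 * σ (G.grid.L true i) + 2 else 0
  let β : ℕ → ℕ := fun i => if 1 ≤ i ∧ i ≤ G.N then 2 * σ (G.grid.L false i) + 2 else 1
  have hne : ∀ i j, α i ≠ β j := by
    intro i j
    simp only [α, β]
    split_ifs with h2 h3 h3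
    · have := L_ne (G := G) true i j
      have h4 : σ (G.grid.L false j) ≠ σ (G.grid.L true i) := fun h =>
        this (hσ (L_mem hE false h3.1 h3.2) (L_mem hE true h2.1 h2.2) h)
      omega
    · omega
    · omega
    · omega
  refine G.exists_cover hk α β hne ?_
  have e : G.deficit (fun i j => decide (β j < α i)) =
      G.deficit (fun i j => decide (σ (G.grid.L false j) < σ (G.grid.L true i))) := by
    refine deficit_congr fun i j h1 h2 h3 h4 => ?_
    simp only [α, β, if_pos (And.intro h1 h2), if_pos (And.intro h3 h4)]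
    congr 1
    rw [eq_iff_iff]
    omega
  rw [e]
  omega

open Classical in
/-- tier of an edge -/
noncomputable def tier (G : Data) (S : Finset ℕ) (e : Seg) : ℕ :=
  if e.1.1 = e.2.1 then
    (if e.1.1 % 2 = 0 then 1 + G.tierV S (e.1.1 / 2)
      else (if G.tierH S ((e.1.2 + 1) / 2) < G.tierV S (e.1.1 / 2) then 0 else 7))
  else
    (if e.1.2 % 2 = 0 then 1 + G.tierH S (e.1.2 / 2)
      else (if G.tierV S ((e.1.1 + 1) / 2) < G.tierH S (e.1.2 / 2) then 0 else 7))

omit hE in
theorem tierV_mem (S : Finset ℕ) (i : ℕ) :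
    G.tierV S i = 2 ∨ G.tierV S i = 4 ∨ G.tierV S i = 5 := by
  unfold tierV
  split_ifs <;> omega

omit hE in
theorem tierH_mem (S : Finset ℕ) (i : ℕ) :
    G.tierH S i = 0 ∨ G.tierH S i = 1 ∨ G.tierH S i = 3 := by
  unfold tierH
  split_ifs <;> omega

omit hE in
theorem tier_Lt (S : Finset ℕ) (i : ℕ) : G.tier S (G.grid.L true i) = 1 + G.tierV S i := by
  unfold tier Grid.L sg
  simp

omit hE in
theorem tier_Lf (S : Finset ℕ) (i : ℕ) : G.tier S (G.grid.L false i) = 1 + G.tierH S i := by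
  unfold tier Grid.L sg
  have := G.N_ge
  simp only [Bool.false_eq_true, if_false, grid_N]
  rw [if_neg (by omega), if_pos (by omega)]
  congr 2
  omega

omit hE in
theorem tier_Dt (S : Finset ℕ) {i : ℕ} (hi : 1 ≤ i) (j : ℕ) : G.tier S (Grid.D true i j) =
    if G.tierV S i < G.tierH S j then 0 else 7 := by
  unfold tier Grid.D sg
  simp only [Bool.not_true, Bool.false_eq_true, if_false]
  have e1 : (2 * i - 1 + 1) / 2 = i := by omega
  have e2 : (2 * j + 1) / 2 = j := by omega
  rw [if_neg (by omega), if_neg (by omega), e1, e2]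

omit hE in
theorem tier_Df (S : Finset ℕ) {i : ℕ} (hi : 1 ≤ i) (j : ℕ) : G.tier S (Grid.D false i j) =
    if G.tierH S i < G.tierV S j then 0 else 7 := by
  unfold tier Grid.D sg
  simp only [Bool.not_false, if_true]
  have e1 : (2 * i - 1 + 1) / 2 = i := by omega
  have e2 : (2 * j + 1) / 2 = j := by omega
  rw [if_neg (by omega), e1, e2]

/-- From a vertex cover to an order. -/
theorem order_of_cover {S : Finset ℕ} (hS : G.IsCover S) :
    ∃ σ : Seg → ℕ, Set.InjOn σ {e | e ∈ E} ∧ G.MX ≤ switches E σ + (2 * G.nn + 4 * S.card) := by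
  classical
  let σ : Seg → ℕ := fun e => G.tier S e * E.length + E.idxOf e
  have hidx : ∀ e ∈ E, E.idxOf e < E.length := fun e he => List.idxOf_lt_length_of_mem he
  have hinj : Set.InjOn σ {e | e ∈ E} := by
    intro e he f hf hef
    have he : e ∈ E := he
    have hf : f ∈ E := hf
    have h1 := hidx e he
    have h2 := hidx f hf
    have h3 : (G.tier S e * E.length + E.idxOf e) % E.length =
      (G.tier S f * E.length + E.idxOf f) % E.length := congrArg (· % E.length) hef
    rw [Nat.mul_comm, Nat.mul_add_mod, Nat.mul_comm, Nat.mul_add_mod, Nat.mod_eq_of_lt h1,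
      Nat.mod_eq_of_lt h2] at h3
    exact (List.idxOf_inj he).1 h3
  have hlt : ∀ e ∈ E, ∀ f, G.tier S e < G.tier S f → σ e < σ f := by
    intro e he f h
    have h1 := hidx e he
    have h2 : (G.tier S e + 1) * E.length ≤ G.tier S f * E.length := Nat.mul_le_mul_right _ h
    rw [Nat.succ_mul] at h2
    simp only [σ]
    omega
  have hiff : ∀ e ∈ E, ∀ f ∈ E, G.tier S e ≠ G.tier S f →
      (σ e < σ f ↔ G.tier S e < G.tier S f) := by
    intro e he f hf hne
    constructor
    · intro h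
      rcases Nat.lt_or_gt_of_ne hne with h1 | h1
      · exact h1
      · have := hlt f hf e h1
        omega
    · exact hlt e he f
  refine ⟨σ, hinj, ?_⟩
  have hLL : ∀ i j, 1 ≤ i → i ≤ G.N → 1 ≤ j → j ≤ G.N →
      (σ (G.grid.L false j) < σ (G.grid.L true i) ↔ G.tierH S j < G.tierV S i) ∧
      (σ (G.grid.L true i) < σ (G.grid.L false j) ↔ G.tierV S i < G.tierH S j) := by
    intro i j h1 h2 h3 h4
    have hv := tierV_mem (G := G) S i
    have hh := tierH_mem (G := G) S j
    rw [hiff _ (L_mem hE false h3 h4) _ (L_mem hE true h1 h2) (by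
      rw [tier_Lt, tier_Lf]; omega), hiff _ (L_mem hE true h1 h2) _ (L_mem hE false h3 h4) (by
      rw [tier_Lt, tier_Lf]; omega), tier_Lt, tier_Lf]
    omega
  have htot := (total hE σ hinj).2 (by
    intro b i j h1 h2 h3 h4 h5
    have hD := D_mem hE b h1 h2 h3 h4 h5
    cases b with
    | true =>
      have hv := tierV_mem (G := G) S i
      have hh := tierH_mem (G := G) S j
      have hd := tier_Dt (G := G) S h1 j
      rw [hiff _ hD _ (L_mem hE true h1 h2) (by
        rw [tier_Lt, hd]; split_ifs <;> omega)]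
      have := hLL i j h1 h2 h3 h4.le
      rw [Bool.not_true, this.1, hd, tier_Lt]
      split_ifs <;> omega
    | false =>
      have hv := tierV_mem (G := G) S j
      have hh := tierH_mem (G := G) S i
      have hd := tier_Df (G := G) S h1 j
      rw [hiff _ hD _ (L_mem hE false h1 h2) (by
        rw [tier_Lf, hd]; split_ifs <;> omega)]
      have := hLL j i h3 h4.le h1 h2
      rw [Bool.not_false, this.2, hd, tier_Lf]
      split_ifs <;> omega)
  have hdef : G.deficit (fun i j => decide (σ (G.grid.L false j) < σ (G.grid.L true i))) =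
      G.deficit (fun i j => decide (G.tierH S j < G.tierV S i)) := by
    refine deficit_congr fun i j h1 h2 h3 h4 => ?_
    rw [decide_eq_decide]
    exact (hLL i j h1 h2 h3 h4).1
  have hle := G.deficit_tier_le hS (fun i j => decide (G.tierH S j < G.tierV S i)) (fun i j => by
    rw [decide_eq_true_eq]
    exact G.tier_lt_iff S i j)
  rw [hdef] at htot
  omega

/-- **The reduction is correct.** -/
theorem mem_stackedSwitches (hnd : E.Nodup) {k : ℕ} (hk : k ≤ G.n) :
    (E, G.MX - (2 * G.nn + 4 * k)) ∈ StackedSwitches ↔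
      ∃ S : Finset ℕ, G.IsCover S ∧ S.card ≤ k := by
  have hdraw : IsDrawing E := Grid.drawing_of_connected hE hnd (Grid.connected hE G.hb1 G.hnice)
  constructor
  · rintro ⟨_, σ, hσ, h⟩
    exact cover_of_order hE hk σ hσ (tsub_le_iff_right.1 h)
  · rintro ⟨S, hS, hc⟩
    obtain ⟨σ, hσ, h⟩ := order_of_cover hE hS
    exact ⟨hdraw, σ, hσ, tsub_le_iff_right.2 (h.trans (by
      show switches E σ + _ ≤ switches E σ + _
      omega))⟩

end

end Data

end Pool.Agent.H54.Sw
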