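import Mathlib

/-!
# Combinatorial core of the hardness of `MaxTotalSwitches`

`N` vertical and `N` horizontal lines; `s i j` says whether the vertical line `i` lies above the
horizontal line `j`.  On every line, between two consecutive crossings, there may be a dummy edge:
the gap then asks for equal signs, otherwise for different signs.
-/

namespace Pool.Agent.H54.Sw

open Finset

/-- `1` if the proposition holds, `0` otherwise. -/
noncomputable def ind (p : Prop) : ℕ := open Classical in if p then 1 else 0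

theorem ind_pos {p : Prop} (h : p) : ind p = 1 := by unfold ind; rw [if_pos h]
theorem ind_neg {p : Prop} (h : ¬ p) : ind p = 0 := by unfold ind; rw [if_neg h]
theorem ind_le (p : Prop) : ind p ≤ 1 := by unfold ind; split_ifs <;> omega
theorem ind_congr {p q : Prop} (h : p ↔ q) : ind p = ind q := by rw [propext h]

/-- reduction data -/
structure Data where
  n : ℕ
  adj : ℕ → ℕ → Bool
  symm : ∀ a b, adj a b = adj b a
  irrefl : ∀ a, adj a a = false
  /-- spacing -/
  w : ℕ
  hw : 2 * n * n + 4 * n + 3 ≤ w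

namespace Data

variable (G : Data)

/-- number of lines in each direction -/
def N : ℕ := G.w * (G.n + 1) - 1

/-- position of the core line `a` -/
def c (a : ℕ) : ℕ := G.w * (a + 1)

theorem w_pos : 3 ≤ G.w := by
  have := G.hw
  omega

/-- the line `i` is the core line number `a` -/
def coreB (i a : ℕ) : Bool := decide (a < G.n) && decide (i = G.c a)

/-- The dummy edge on the vertical line `i` between the horizontal lines `j` and `j + 1` is
missing. -/
def missV (i j : ℕ) : Prop :=
  ∃ a < G.n, ∃ b < G.n, i = G.c a ∧ (j = G.c b ∨ j + 1 = G.c b) ∧ G.adj a b = false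

/-- The dummy edge on the horizontal line `j` between the vertical lines `i` and `i + 1` is
missing. -/
def missH (i j : ℕ) : Prop :=
  ∃ a < G.n, j = G.c a ∧ (i = G.c a ∨ i + 1 = G.c a)

theorem c_lt {a b : ℕ} (h : a < b) : G.c a < G.c b := by
  unfold c
  have := G.w_pos
  exact Nat.mul_lt_mul_of_pos_left (by omega) (by omega)

theorem c_inj {a b : ℕ} (h : G.c a = G.c b) : a = b := by
  rcases Nat.lt_trichotomy a b with h1 | h1 | h1
  · have := G.c_lt h1; omega
  · exact h1
  · have := G.c_lt h1; omega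

theorem c_succ (a : ℕ) : G.c (a + 1) = G.c a + G.w := by
  unfold c; ring

theorem c_add_le {a b : ℕ} (h : a < b) : G.c a + G.w ≤ G.c b := by
  rw [← G.c_succ]
  rcases Nat.lt_or_ge (a + 1) b with h1 | h1
  · exact (G.c_lt h1).le
  · have : a + 1 = b := by omega
    rw [this]

theorem c_ne_near {a b d : ℕ} (hd : 0 < d) (hd2 : d < 3) : G.c a + d ≠ G.c b := by
  intro h
  have hw := G.w_pos
  rcases Nat.lt_trichotomy a b with h1 | h1 | h1
  · have := G.c_add_le h1; omega
  · subst h1; omega
  · have := G.c_lt h1; omega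

theorem c_ge (a : ℕ) : 3 ≤ G.c a := by
  unfold c
  have := G.w_pos
  nlinarith

theorem c_le_N {a : ℕ} (h : a < G.n) : G.c a + 2 ≤ G.N := by
  unfold c N
  have hw := G.w_pos
  have h1 : G.w * (a + 1) + G.w ≤ G.w * (G.n + 1) := by
    have : G.w * (a + 1) + G.w = G.w * (a + 2) := by ring
    rw [this]
    exact Nat.mul_le_mul_left _ (by omega)
  omega

end Data

/-! ## paths of Booleans -/

theorem path_le (f : ℕ → Bool) {p q : ℕ} (h : p ≤ q) :
    ind (f p ≠ f q) ≤ ∑ j ∈ Finset.Ico p q, ind (f j ≠ f (j + 1)) := by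
  induction q, h using Nat.le_induction with
  | base => simp [ind]
  | succ q hq ih =>
    rw [Finset.sum_Ico_succ_top hq]
    have : ind (f p ≠ f (q + 1)) ≤ ind (f p ≠ f q) + ind (f q ≠ f (q + 1)) := by
      by_cases h1 : f p = f q
      · rw [h1]; exact Nat.le_add_left _ _
      · rw [ind_pos (p := f p ≠ f q) h1]
        exact (ind_le _).trans (Nat.le_add_right _ _)
    omega

/-- deficit of a gap: `miss` says that the gap asks for different values -/
noncomputable def dfc (miss : Prop) (x y : Bool) : ℕ :=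
  open Classical in if miss then ind (x = y) else ind (x ≠ y)

theorem dfc_of_not {miss : Prop} (h : ¬ miss) (x y : Bool) : dfc miss x y = ind (x ≠ y) := by
  unfold dfc; rw [if_neg h]

theorem dfc_of {miss : Prop} (h : miss) (x y : Bool) : dfc miss x y = ind (x = y) := by
  unfold dfc; rw [if_pos h]

theorem seg_regular (f : ℕ → Bool) (miss : ℕ → Prop) {p m q : ℕ} (hpm : p ≤ m) (hmq : m ≤ q)
    {v : Bool} (hp : f p = v) (hq : f q = v) (h : ∀ j, p ≤ j → j < q → ¬ miss j) :
    2 * ind (f m ≠ v) ≤ ∑ j ∈ Finset.Ico p q, dfc (miss j) (f j) (f (j + 1)) := by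
  have e : ∑ j ∈ Finset.Ico p q, dfc (miss j) (f j) (f (j + 1)) =
      ∑ j ∈ Finset.Ico p q, ind (f j ≠ f (j + 1)) := by
    refine Finset.sum_congr rfl fun j hj => ?_
    rw [Finset.mem_Ico] at hj
    exact dfc_of_not (h j hj.1 hj.2) _ _
  rw [e, ← Finset.sum_Ico_consecutive _ hpm hmq]
  have h1 := path_le f hpm
  have h2 := path_le f hmq
  rw [hp] at h1
  rw [hq] at h2
  have h3 : ind (v ≠ f m) = ind (f m ≠ v) := ind_congr ne_comm
  rw [h3] at h1
  omega

theorem seg_missing (f : ℕ → Bool) (miss : ℕ → Prop) {p m q : ℕ} (hpm : p < m) (hmq : m < q)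
    {v : Bool} (hp : f p = v) (hq : f q = v)
    (h : ∀ j, p ≤ j → j < q → (miss j ↔ (j = m ∨ j + 1 = m))) :
    2 * ind (f m = v) ≤ ∑ j ∈ Finset.Ico p q, dfc (miss j) (f j) (f (j + 1)) := by
  obtain ⟨m, rfl⟩ : ∃ m', m = m' + 1 := ⟨m - 1, by omega⟩
  rw [← Finset.sum_Ico_consecutive _ (show p ≤ m by omega) (show m ≤ q by omega),
    Finset.sum_eq_sum_Ico_succ_bot (show m < q by omega),
    Finset.sum_eq_sum_Ico_succ_bot (show m + 1 < q by omega)]
  have e1 : ∑ j ∈ Finset.Ico p m, dfc (miss j) (f j) (f (j + 1)) =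
      ∑ j ∈ Finset.Ico p m, ind (f j ≠ f (j + 1)) := by
    refine Finset.sum_congr rfl fun j hj => ?_
    rw [Finset.mem_Ico] at hj
    refine dfc_of_not ?_ _ _
    rw [h j hj.1 (by omega)]
    omega
  have e2 : ∑ j ∈ Finset.Ico (m + 1 + 1) q, dfc (miss j) (f j) (f (j + 1)) =
      ∑ j ∈ Finset.Ico (m + 1 + 1) q, ind (f j ≠ f (j + 1)) := by
    refine Finset.sum_congr rfl fun j hj => ?_
    rw [Finset.mem_Ico] at hj
    refine dfc_of_not ?_ _ _
    rw [h j (by omega) hj.2]
    omega
  rw [e1, e2, dfc_of ((h m (by omega) (by omega)).2 (Or.inr rfl)),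
    dfc_of ((h (m + 1) (by omega) (by omega)).2 (Or.inl rfl))]
  have h1 := path_le f (show p ≤ m by omega)
  have h2 := path_le f (show m + 1 + 1 ≤ q by omega)
  rw [hp] at h1
  rw [hq] at h2
  have key : ∀ x y z v : Bool, 2 * ind (y = v) ≤
      ind (v ≠ x) + (ind (x = y) + (ind (y = z) + ind (z ≠ v))) := by
    intro x y z v
    cases x <;> cases y <;> cases z <;> cases v <;> simp [ind]
  have := key (f m) (f (m + 1)) (f (m + 1 + 1)) v
  omega

namespace Data

variable (G : Data) (s : ℕ → ℕ → Bool)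

/-- deficit of the gap on the vertical line `i` above the horizontal line `j` -/
noncomputable def defV (i j : ℕ) : ℕ := dfc (G.missV i j) (s i j) (s i (j + 1))

/-- deficit of the gap on the horizontal line `j` to the right of the vertical line `i` -/
noncomputable def defH (i j : ℕ) : ℕ := dfc (G.missH i j) (s i j) (s (i + 1) j)

/-- total deficit -/
noncomputable def deficit : ℕ :=
  ∑ i ∈ Finset.Icc 1 G.N, ∑ j ∈ Finset.Ico 1 G.N, G.defV s i j +
    ∑ j ∈ Finset.Icc 1 G.N, ∑ i ∈ Finset.Ico 1 G.N, G.defH s i j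

theorem N_pos : 1 ≤ G.N := by
  unfold N
  have := G.w_pos
  have h1 : G.w * 1 ≤ G.w * (G.n + 1) := Nat.mul_le_mul_left _ (by omega)
  omega

/-- positions in a separator block -/
theorem block_not_core {b j : ℕ} (h1 : G.w * b < j) (h2 : j < G.w * (b + 1)) (a : ℕ) :
    j ≠ G.c a := by
  intro h
  unfold c at h
  rw [h] at h1 h2
  have h3 : b < a + 1 := lt_of_mul_lt_mul_left h1 (Nat.zero_le _)
  have h4 : a + 1 < b + 1 := lt_of_mul_lt_mul_left h2 (Nat.zero_le _)
  omega

theorem block_le_N {b j : ℕ} (hb : b ≤ G.n) (h2 : j < G.w * (b + 1)) : j ≤ G.N := by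
  unfold N
  have : G.w * (b + 1) ≤ G.w * (G.n + 1) := Nat.mul_le_mul_left _ (by omega)
  omega

/-- Among the separator lines of a block there is a constant one. -/
theorem exists_const (f : ℕ → ℕ → Bool) (D : ℕ) (hD : D + 1 < G.w) (miss : ℕ → ℕ → Prop)
    (hmiss : ∀ j i, (∀ a, j ≠ G.c a) → ¬ miss i j)
    (hsum : ∑ j ∈ Finset.Icc 1 G.N, ∑ i ∈ Finset.Ico 1 G.N, dfc (miss i j) (f i j) (f (i + 1) j) ≤ D)
    {b : ℕ} (hb : b ≤ G.n) :
    ∃ j, G.w * b < j ∧ j < G.w * (b + 1) ∧ ∀ i, 1 ≤ i → i ≤ G.N → f i j = f 1 j := by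
  by_contra hcon
  push Not at hcon
  have h1 : ∀ j ∈ Finset.Ioo (G.w * b) (G.w * (b + 1)),
      1 ≤ ∑ i ∈ Finset.Ico 1 G.N, dfc (miss i j) (f i j) (f (i + 1) j) := by
    intro j hj
    rw [Finset.mem_Ioo] at hj
    obtain ⟨i, hi1, hi2, hi3⟩ := hcon j hj.1 hj.2
    have hnc := G.block_not_core hj.1 hj.2
    have e : ∑ i ∈ Finset.Ico 1 G.N, dfc (miss i j) (f i j) (f (i + 1) j) =
        ∑ i ∈ Finset.Ico 1 G.N, ind (f i j ≠ f (i + 1) j) :=
      Finset.sum_congr rfl fun i _ => dfc_of_not (hmiss j i hnc) _ _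
    rw [e, ← Finset.sum_Ico_consecutive _ hi1 hi2]
    have h2 := path_le (fun i => f i j) hi1
    have h3 : ind (f 1 j ≠ f i j) = 1 := by
      unfold ind; rw [if_pos (Ne.symm hi3)]
    simp only [h3] at h2
    omega
  have h2 : ((Finset.Ioo (G.w * b) (G.w * (b + 1))).card) ≤
      ∑ j ∈ Finset.Ioo (G.w * b) (G.w * (b + 1)),
        ∑ i ∈ Finset.Ico 1 G.N, dfc (miss i j) (f i j) (f (i + 1) j) := by
    have := Finset.sum_le_sum h1
    simpa using this
  have h3 : ∑ j ∈ Finset.Ioo (G.w * b) (G.w * (b + 1)),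
        ∑ i ∈ Finset.Ico 1 G.N, dfc (miss i j) (f i j) (f (i + 1) j) ≤
      ∑ j ∈ Finset.Icc 1 G.N, ∑ i ∈ Finset.Ico 1 G.N, dfc (miss i j) (f i j) (f (i + 1) j) := by
    refine Finset.sum_le_sum_of_subset ?_
    intro j hj
    rw [Finset.mem_Ioo] at hj
    rw [Finset.mem_Icc]
    exact ⟨by omega, G.block_le_N hb hj.2⟩
  rw [Nat.card_Ioo] at h2
  have h4 : G.w * (b + 1) = G.w * b + G.w := by ring
  omega

/-- the pair `(a, b)` is violated with respect to the value `v` -/
def viol (v : Bool) (a b : ℕ) : Prop :=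
  (a = b ∧ s (G.c a) (G.c b) = v) ∨ (G.adj a b = true ∧ s (G.c a) (G.c b) ≠ v)

/-- Lower bound for the deficit. -/
theorem deficit_lower (hD : G.deficit s + 1 < G.w) : ∃ v : Bool,
    open Classical in
    ∑ a ∈ Finset.range G.n, ∑ b ∈ Finset.range G.n,
      (2 * ind (a ≠ b ∧ G.adj a b = false) + 4 * ind (G.viol s v a b)) ≤ G.deficit s := by
  classical
  have hw := G.w_pos
  have hr : ∀ b, ∃ j, b ≤ G.n → G.w * b < j ∧ j < G.w * (b + 1) ∧
      ∀ i, 1 ≤ i → i ≤ G.N → s i j = s 1 j := by
    intro b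
    by_cases hb : b ≤ G.n
    · have hm : ∀ j i, (∀ a, j ≠ G.c a) → ¬ G.missH i j := by
        rintro j i hj ⟨a, _, h1, _⟩
        exact hj a h1
      obtain ⟨j, h1⟩ := G.exists_const s (G.deficit s) hD G.missH hm (Nat.le_add_left _ _) hb
      exact ⟨j, fun _ => h1⟩
    · exact ⟨0, fun h => absurd h hb⟩
  have hx : ∀ b, ∃ j, b ≤ G.n → G.w * b < j ∧ j < G.w * (b + 1) ∧
      ∀ i, 1 ≤ i → i ≤ G.N → s j i = s j 1 := by
    intro b
    by_cases hb : b ≤ G.n
    · have hm : ∀ j i, (∀ a, j ≠ G.c a) → ¬ G.missV j i := by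
        rintro j i hj ⟨a, _, b, _, h1, _⟩
        exact hj a h1
      obtain ⟨j, h1⟩ := G.exists_const (fun i j => s j i) (G.deficit s) hD
        (fun i j => G.missV j i) hm (Nat.le_add_right _ _) hb
      exact ⟨j, fun _ => h1⟩
    · exact ⟨0, fun h => absurd h hb⟩
  choose r hr using hr
  choose x hx using hx
  have hN := G.N_pos
  have hx0 := hx 0 (Nat.zero_le _)
  have hr0 := hr 0 (Nat.zero_le _)
  have hx0N : x 0 ≤ G.N := G.block_le_N (Nat.zero_le _) hx0.2.1
  have hr0N : r 0 ≤ G.N := G.block_le_N (Nat.zero_le _) hr0.2.1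
  -- the common value
  obtain ⟨v, hv⟩ : ∃ v, s (x 0) (r 0) = v := ⟨_, rfl⟩
  have hrow : ∀ b, b ≤ G.n → ∀ i, 1 ≤ i → i ≤ G.N → s i (r b) = v := by
    intro b hb i hi1 hi2
    have h1 := hr b hb
    have hrbN : r b ≤ G.N := G.block_le_N hb h1.2.1
    rw [h1.2.2 i hi1 hi2, ← h1.2.2 (x 0) (by omega) hx0N, hx0.2.2 (r b) (by omega) hrbN,
      ← hx0.2.2 (r 0) (by omega) hr0N, hv]
  have hcol : ∀ a, a ≤ G.n → ∀ j, 1 ≤ j → j ≤ G.N → s (x a) j = v := by
    intro a ha j hj1 hj2
    have h1 := hx a ha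
    have hxaN : x a ≤ G.N := G.block_le_N ha h1.2.1
    rw [h1.2.2 j hj1 hj2, ← h1.2.2 (r 0) (by omega) hr0N]
    exact hrow 0 (Nat.zero_le _) (x a) (by omega) hxaN
  refine ⟨v, ?_⟩
  -- positions
  have hrc : ∀ b, b < G.n → r b < G.c b ∧ G.c b < r (b + 1) := by
    intro b hb
    exact ⟨(hr b hb.le).2.1, (hr (b + 1) hb).1⟩
  have hxc : ∀ b, b < G.n → x b < G.c b ∧ G.c b < x (b + 1) := by
    intro b hb
    exact ⟨(hx b hb.le).2.1, (hx (b + 1) hb).1⟩
  -- the pieces
  have hpair : ∀ a ∈ Finset.range G.n, ∀ b ∈ Finset.range G.n,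
      2 * ind (a ≠ b ∧ G.adj a b = false) + 4 * ind (G.viol s v a b) ≤
      ∑ j ∈ Finset.Ico (r b) (r (b + 1)), G.defV s (G.c a) j +
        ∑ i ∈ Finset.Ico (x a) (x (a + 1)), G.defH s i (G.c b) := by
    intro a ha b hb
    rw [Finset.mem_range] at ha hb
    have hcaN := G.c_le_N ha
    have hcbN := G.c_le_N hb
    have hca := G.c_ge a
    have hcb := G.c_ge b
    have p1 := hrow b hb.le (G.c a) (by omega) (by omega)
    have p2 := hrow (b + 1) hb (G.c a) (by omega) (by omega)
    have q1 := hcol a ha.le (G.c b) (by omega) (by omega)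
    have q2 := hcol (a + 1) ha (G.c b) (by omega) (by omega)
    have hrb := hr b hb.le
    have hrb1 := hr (b + 1) hb
    have hxa := hx a ha.le
    have hxa1 := hx (a + 1) ha
    -- where is the missing gap
    have near : ∀ d y z : ℕ, G.w * d < y → z < G.w * (d + 1 + 1) → ∀ j b' : ℕ, y ≤ j → j < z →
        (j = G.c b' ∨ j + 1 = G.c b') → b' = d := by
      intro d y z h1 h2 j b' h3 h4 h5
      unfold c at h5
      have h6 : G.w * d < G.w * (b' + 1) := by omega
      have h7 : G.w * (b' + 1) < G.w * (d + 1 + 1) ∨ G.w * (b' + 1) = G.w * (d + 1 + 1) := by omega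
      have h8 : d < b' + 1 := lt_of_mul_lt_mul_left h6 (Nat.zero_le _)
      rcases h7 with h7 | h7
      · have h9 : b' + 1 < d + 1 + 1 := lt_of_mul_lt_mul_left h7 (Nat.zero_le _)
        omega
      · omega
    by_cases hadj : G.adj a b = true
    · -- adjacent
      have hab : a ≠ b := by
        rintro rfl
        rw [G.irrefl] at hadj
        exact absurd hadj (by decide)
      have i1 := seg_regular (fun j => s (G.c a) j) (fun j => G.missV (G.c a) j) (hrc b hb).1.le
        (hrc b hb).2.le p1 p2 ?_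
      · have i2 := seg_regular (fun i => s i (G.c b)) (fun i => G.missH i (G.c b)) (hxc a ha).1.le
          (hxc a ha).2.le q1 q2 ?_
        · have e1 : ind (a ≠ b ∧ G.adj a b = false) = 0 := by
            unfold ind; rw [if_neg]; rintro ⟨_, h⟩; rw [hadj] at h; exact absurd h (by decide)
          have e2 : ind (G.viol s v a b) = ind (s (G.c a) (G.c b) ≠ v) := by
            unfold ind viol
            congr 1
            simp [hab, hadj]
          rw [e1, e2]
          simp only [defV, defH] at *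
          omega
        · rintro i h1 h2 ⟨a', _, h3, h4⟩
          have h5 := near a _ _ hxa.1 hxa1.2.1 i a' h1 h2 h4
          have h6 := G.c_inj h3
          omega
      · rintro j h1 h2 ⟨a', _, b', _, h3, h4, h5⟩
        have h6 := near b _ _ hrb.1 hrb1.2.1 j b' h1 h2 h4
        have h7 := G.c_inj h3
        subst h6; subst h7
        rw [hadj] at h5
        exact absurd h5 (by decide)
    · have hadj' : G.adj a b = false := by simpa using hadj
      have i1 := seg_missing (fun j => s (G.c a) j) (fun j => G.missV (G.c a) j) (hrc b hb).1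
        (hrc b hb).2 p1 p2 ?_
      · by_cases hab : a = b
        · subst hab
          have i2 := seg_missing (fun i => s i (G.c a)) (fun i => G.missH i (G.c a)) (hxc a ha).1
            (hxc a ha).2 q1 q2 ?_
          · have e1 : ind (a ≠ a ∧ G.adj a a = false) = 0 := by
              unfold ind; rw [if_neg]; rintro ⟨h, _⟩; exact h rfl
            have e2 : ind (G.viol s v a a) = ind (s (G.c a) (G.c a) = v) := by
              unfold ind viol
              congr 1
              simp [G.irrefl]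
            rw [e1, e2]
            simp only [defV, defH] at *
            omega
          · intro i h1 h2
            constructor
            · rintro ⟨a', _, h3, h4⟩
              have := G.c_inj h3
              subst this
              exact h4
            · intro h3
              exact ⟨a, ha, rfl, h3⟩
        · have i2 := seg_regular (fun i => s i (G.c b)) (fun i => G.missH i (G.c b))
            (hxc a ha).1.le (hxc a ha).2.le q1 q2 ?_
          · have e1 : ind (a ≠ b ∧ G.adj a b = false) = 1 := by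
              unfold ind; rw [if_pos ⟨hab, hadj'⟩]
            have e2 : ind (G.viol s v a b) = 0 := by
              unfold ind viol
              rw [if_neg]
              simp [hab, hadj']
            rw [e1, e2]
            simp only [defV, defH] at *
            have e3 : ind (s (G.c a) (G.c b) = v) + ind (s (G.c a) (G.c b) ≠ v) = 1 := by
              unfold ind
              by_cases h : s (G.c a) (G.c b) = v <;> simp [h]
            omega
          · rintro i h1 h2 ⟨a', _, h3, h4⟩
            have h5 := near a _ _ hxa.1 hxa1.2.1 i a' h1 h2 h4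
            have h6 := G.c_inj h3
            omega
      · intro j h1 h2
        constructor
        · rintro ⟨a', _, b', _, h3, h4, h5⟩
          have h6 := near b _ _ hrb.1 hrb1.2.1 j b' h1 h2 h4
          subst h6
          exact h4
        · intro h3
          exact ⟨a, ha, b, hb, rfl, h3, hadj'⟩
  refine (Finset.sum_le_sum fun a ha => Finset.sum_le_sum fun b hb => hpair a ha b hb).trans ?_
  simp only [Finset.sum_add_distrib]
  unfold deficit
  -- telescoping
  have tele : ∀ (g : ℕ → ℕ) (y : ℕ → ℕ), (∀ b, b < G.n → y b ≤ y (b + 1)) →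
      ∑ b ∈ Finset.range G.n, ∑ j ∈ Finset.Ico (y b) (y (b + 1)), g j =
        ∑ j ∈ Finset.Ico (y 0) (y G.n), g j := by
    intro g y hy
    have : ∀ m, m ≤ G.n → y 0 ≤ y m ∧ ∑ b ∈ Finset.range m,
        ∑ j ∈ Finset.Ico (y b) (y (b + 1)), g j = ∑ j ∈ Finset.Ico (y 0) (y m), g j := by
      intro m
      induction m with
      | zero => intro _; simp
      | succ m ih =>
        intro hm
        obtain ⟨h1, h2⟩ := ih (by omega)
        have h3 := hy m (by omega)
        refine ⟨h1.trans h3, ?_⟩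
        rw [Finset.sum_range_succ, h2, Finset.sum_Ico_consecutive _ h1 h3]
    exact (this G.n le_rfl).2
  have himg : ∀ (g : ℕ → ℕ), ∑ a ∈ Finset.range G.n, g (G.c a) ≤ ∑ i ∈ Finset.Icc 1 G.N, g i := by
    intro g
    have hinj : Set.InjOn G.c (Finset.range G.n : Set ℕ) := fun a _ b _ h => G.c_inj h
    rw [← Finset.sum_image (f := g) (g := G.c) hinj]
    refine Finset.sum_le_sum_of_subset ?_
    intro i hi
    rw [Finset.mem_image] at hi
    obtain ⟨a, ha, rfl⟩ := hi
    rw [Finset.mem_range] at ha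
    have := G.c_le_N ha
    have := G.c_ge a
    rw [Finset.mem_Icc]; omega
  have hrn := hr G.n le_rfl
  have hxn := hx G.n le_rfl
  have hrnN : r G.n ≤ G.N := G.block_le_N le_rfl hrn.2.1
  have hxnN : x G.n ≤ G.N := G.block_le_N le_rfl hxn.2.1
  refine Nat.add_le_add ?_ ?_
  · refine le_trans (Finset.sum_le_sum fun a _ => ?_)
      (himg fun i => ∑ j ∈ Finset.Ico 1 G.N, G.defV s i j)
    rw [tele (fun j => G.defV s (G.c a) j) r (fun b hb => by have := hrc b hb; omega)]
    refine Finset.sum_le_sum_of_subset (Finset.Ico_subset_Ico (by omega) hrnN)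
  · rw [Finset.sum_comm]
    refine le_trans (Finset.sum_le_sum fun b _ => ?_)
      (himg fun j => ∑ i ∈ Finset.Ico 1 G.N, G.defH s i j)
    rw [tele (fun i => G.defH s i (G.c b)) x (fun a ha => by have := hxc a ha; omega)]
    refine Finset.sum_le_sum_of_subset (Finset.Ico_subset_Ico (by omega) hxnN)

/-- number of ordered pairs of different nonadjacent vertices -/
noncomputable def nn : ℕ := ∑ a ∈ Finset.range G.n, ∑ b ∈ Finset.range G.n, ind (a ≠ b ∧ G.adj a b = false)

/-- `S` is a vertex cover -/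
def IsCover (S : Finset ℕ) : Prop :=
  S ⊆ Finset.range G.n ∧ ∀ a < G.n, ∀ b < G.n, G.adj a b = true → a ∈ S ∨ b ∈ S

theorem nn_le : G.nn ≤ G.n * G.n := by
  unfold nn
  calc ∑ a ∈ Finset.range G.n, ∑ b ∈ Finset.range G.n, ind (a ≠ b ∧ G.adj a b = false)
      ≤ ∑ _a ∈ Finset.range G.n, ∑ _b ∈ Finset.range G.n, 1 := by
        refine Finset.sum_le_sum fun a _ => Finset.sum_le_sum fun b _ => ?_
        unfold ind
        split_ifs <;> omega
    _ = G.n * G.n := by simp

/-- From a good order to a vertex cover. -/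
theorem exists_cover {k : ℕ} (hk : k ≤ G.n) (α β : ℕ → ℕ) (hne : ∀ i j, α i ≠ β j)
    (hd : G.deficit (fun i j => decide (β j < α i)) ≤ 2 * G.nn + 4 * k) :
    ∃ S : Finset ℕ, G.IsCover S ∧ S.card ≤ k := by
  classical
  set s : ℕ → ℕ → Bool := fun i j => decide (β j < α i) with hs
  have hw := G.hw
  have hnn := G.nn_le
  have h1 : G.deficit s + 1 < G.w := by
    have : 2 * G.n * G.n = 2 * (G.n * G.n) := by ring
    omega
  obtain ⟨v, hv⟩ := G.deficit_lower s h1
  have h2 : ∑ a ∈ Finset.range G.n, ∑ b ∈ Finset.range G.n, ind (G.viol s v a b) ≤ k := by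
    have e : ∑ a ∈ Finset.range G.n, ∑ b ∈ Finset.range G.n,
      (2 * ind (a ≠ b ∧ G.adj a b = false) + 4 * ind (G.viol s v a b)) =
      2 * G.nn + 4 * ∑ a ∈ Finset.range G.n, ∑ b ∈ Finset.range G.n, ind (G.viol s v a b) := by
      simp only [Finset.sum_add_distrib, ← Finset.mul_sum, nn]
    rw [e] at hv
    omega
  refine ⟨(Finset.range G.n).filter (fun a => ∃ b < G.n, G.viol s v a b), ⟨Finset.filter_subset _ _,
    ?_⟩, ?_⟩
  · intro a ha b hb hab
    by_contra hcon
    simp only [Finset.mem_filter, Finset.mem_range, not_or, not_and, not_exists] at hcon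
    obtain ⟨ca, cb⟩ := hcon
    have ca := ca ha
    have cb := cb hb
    have v1 := ca a ha
    have v2 := ca b hb
    have v3 := cb b hb
    have v4 := cb a ha
    unfold viol at v1 v2 v3 v4
    have hba : G.adj b a = true := by rw [G.symm]; exact hab
    simp only [true_and, G.irrefl, hab, hba, not_or, not_and, not_not, ne_eq] at v1 v2 v3 v4
    have w1 := v1.1
    have w2 := v2.2
    have w3 := v3.1
    have w4 := v4.2
    have n1 := hne (G.c a) (G.c a)
    have n2 := hne (G.c a) (G.c b)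
    have n3 := hne (G.c b) (G.c b)
    have n4 := hne (G.c b) (G.c a)
    cases v
    · simp only [hs, decide_eq_false_iff_not, not_lt, not_le] at w1 w2 w3 w4
      omega
    · simp only [hs, decide_eq_true_eq, not_lt] at w1 w2 w3 w4
      omega
  · refine le_trans ?_ h2
    rw [Finset.card_filter]
    refine Finset.sum_le_sum fun a _ => ?_
    split_ifs with h
    · obtain ⟨b, hb, hb'⟩ := h
      have : ind (G.viol s v a b) = 1 := by unfold ind; rw [if_pos hb']
      rw [← this]
      exact Finset.single_le_sum (f := fun b => ind (G.viol s v a b))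
        (fun _ _ => Nat.zero_le _) (Finset.mem_range.2 hb)
    · exact Nat.zero_le _

open Classical in
/-- tier of the vertical line `i` -/
noncomputable def tierV (S : Finset ℕ) (i : ℕ) : ℕ :=
  if ∃ a < G.n, i = G.c a ∧ a ∈ S then 4 else if ∃ a < G.n, i = G.c a then 2 else 5

open Classical in
/-- tier of the horizontal line `j` -/
noncomputable def tierH (S : Finset ℕ) (j : ℕ) : ℕ :=
  if ∃ a < G.n, j = G.c a ∧ a ∈ S then 1 else if ∃ a < G.n, j = G.c a then 3 else 0

theorem tier_lt_iff (S : Finset ℕ) (i j : ℕ) : G.tierH S j < G.tierV S i ↔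
    ¬ ∃ a < G.n, ∃ b < G.n, i = G.c a ∧ j = G.c b ∧ a ∉ S ∧ b ∉ S := by
  unfold tierH tierV
  by_cases hi : ∃ a < G.n, i = G.c a
  · obtain ⟨a, ha, rfl⟩ := hi
    have e1 : (∃ a' < G.n, G.c a = G.c a' ∧ a' ∈ S) ↔ a ∈ S :=
      ⟨fun ⟨a', _, h2, h3⟩ => G.c_inj h2 ▸ h3, fun h => ⟨a, ha, rfl, h⟩⟩
    have e2 : (∃ a' < G.n, G.c a = G.c a') := ⟨a, ha, rfl⟩
    by_cases hj : ∃ b < G.n, j = G.c b
    · obtain ⟨b, hb, rfl⟩ := hj
      have e3 : (∃ a' < G.n, G.c b = G.c a' ∧ a' ∈ S) ↔ b ∈ S :=
        ⟨fun ⟨a', _, h2, h3⟩ => G.c_inj h2 ▸ h3, fun h => ⟨b, hb, rfl, h⟩⟩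
      have e4 : (∃ a' < G.n, G.c b = G.c a') := ⟨b, hb, rfl⟩
      have e5 : (∃ a' < G.n, ∃ b' < G.n, G.c a = G.c a' ∧ G.c b = G.c b' ∧ a' ∉ S ∧ b' ∉ S) ↔
          (a ∉ S ∧ b ∉ S) := by
        constructor
        · rintro ⟨a', _, b', _, h1, h2, h3, h4⟩
          rw [G.c_inj h1, G.c_inj h2]
          exact ⟨h3, h4⟩
        · rintro ⟨h3, h4⟩
          exact ⟨a, ha, b, hb, rfl, rfl, h3, h4⟩
      rw [e5]
      simp only [e1, e2, e3, e4, if_true]
      by_cases h1 : a ∈ S <;> by_cases h2 : b ∈ S <;> simp [h1, h2]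
    · have e3 : ¬ ∃ b < G.n, j = G.c b ∧ b ∈ S := fun ⟨b, hb, h1, _⟩ => hj ⟨b, hb, h1⟩
      rw [if_neg e3, if_neg hj]
      have e5 : ¬ ∃ a' < G.n, ∃ b' < G.n, G.c a = G.c a' ∧ j = G.c b' ∧ a' ∉ S ∧ b' ∉ S :=
        fun ⟨_, _, b', hb', _, h2, _⟩ => hj ⟨b', hb', h2⟩
      simp only [e5, not_false_eq_true, iff_true]
      split_ifs <;> omega
  · have e3 : ¬ ∃ b < G.n, i = G.c b ∧ b ∈ S := fun ⟨b, hb, h1, _⟩ => hi ⟨b, hb, h1⟩
    rw [if_neg e3, if_neg hi]
    have e5 : ¬ ∃ a' < G.n, ∃ b' < G.n, i = G.c a' ∧ j = G.c b' ∧ a' ∉ S ∧ b' ∉ S :=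
      fun ⟨a', ha', _, _, h1, _⟩ => hi ⟨a', ha', h1⟩
    simp only [e5, not_false_eq_true, iff_true]
    split_ifs <;> omega

/-- From a vertex cover to a good order. -/
theorem deficit_tier_le {S : Finset ℕ} (hS : G.IsCover S) (s : ℕ → ℕ → Bool)
    (hs : ∀ i j, s i j = true ↔
      ¬ ∃ a < G.n, ∃ b < G.n, i = G.c a ∧ j = G.c b ∧ a ∉ S ∧ b ∉ S) :
    G.deficit s ≤ 2 * G.nn + 4 * S.card := by
  classical
  set X : ℕ → ℕ → Prop := fun a b => G.adj a b = false ∧ (a ∈ S ∨ b ∈ S) with hX
  set Y : ℕ → ℕ → Prop := fun a b => (a ≠ b ∧ a ∉ S ∧ b ∉ S) ∨ (a = b ∧ a ∈ S) with hY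
  have hsf : ∀ i j, s i j = false ↔
      ∃ a < G.n, ∃ b < G.n, i = G.c a ∧ j = G.c b ∧ a ∉ S ∧ b ∉ S := by
    intro i j
    have := hs i j
    cases h : s i j
    · rw [h] at this
      simp only [Bool.false_eq_true, false_iff, not_not] at this
      simpa using this
    · rw [h] at this
      simp only [true_iff] at this
      simpa using this
  have hnadj : ∀ a < G.n, ∀ b < G.n, a ∉ S → b ∉ S → G.adj a b = false := by
    intro a ha b hb h1 h2
    by_contra h3
    have h4 : G.adj a b = true := by simpa using h3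
    rcases hS.2 a ha b hb h4 with h | h
    · exact h1 h
    · exact h2 h
  have near : ∀ a b j, (j = G.c a ∨ j + 1 = G.c a) → (j = G.c b ∨ j + 1 = G.c b) → a = b := by
    intro a b j h1 h2
    rcases h1 with h1 | h1 <;> rcases h2 with h2 | h2
    · exact G.c_inj (h1.symm.trans h2)
    · exact absurd (by omega : G.c a + 1 = G.c b) (G.c_ne_near (by omega) (by omega))
    · exact absurd (by omega : G.c b + 1 = G.c a) (G.c_ne_near (by omega) (by omega))
    · exact G.c_inj (h1.symm.trans h2)
  -- the terms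
  let TX : ℕ → ℕ → ℕ → ℕ → ℕ := fun i j a b =>
    ind (i = G.c a ∧ j = G.c b ∧ X a b) + ind (i = G.c a ∧ j + 1 = G.c b ∧ X a b)
  let TY : ℕ → ℕ → ℕ → ℕ → ℕ := fun i j a b =>
    ind (j = G.c b ∧ i = G.c a ∧ Y a b) + ind (j = G.c b ∧ i + 1 = G.c a ∧ Y a b)
  have single : ∀ (T : ℕ → ℕ → ℕ) (a b : ℕ), a < G.n → b < G.n → 1 ≤ T a b →
      1 ≤ ∑ a ∈ Finset.range G.n, ∑ b ∈ Finset.range G.n, T a b := by
    intro T a b ha hb h
    refine h.trans ?_
    refine le_trans ?_ (Finset.single_le_sum (f := fun a => ∑ b ∈ Finset.range G.n, T a b)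
      (fun _ _ => Nat.zero_le _) (Finset.mem_range.2 ha))
    exact Finset.single_le_sum (f := fun b => T a b) (fun _ _ => Nat.zero_le _)
      (Finset.mem_range.2 hb)
  have dle : ∀ (m : Prop) (x y : Bool), dfc m x y ≤ 1 := by
    intro m x y
    unfold dfc ind
    split_ifs <;> omega
  have hV : ∀ i j, G.defV s i j ≤
      ∑ a ∈ Finset.range G.n, ∑ b ∈ Finset.range G.n, TX i j a b := by
    intro i j
    by_cases h0 : G.defV s i j = 0
    · rw [h0]; exact Nat.zero_le _
    refine (dle _ _ _).trans ?_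
    by_cases hm : G.missV i j
    · obtain ⟨a, ha, b, hb, h1, h2, h3⟩ := hm
      unfold defV at h0
      rw [dfc_of ⟨a, ha, b, hb, h1, h2, h3⟩] at h0
      have h4 : s i j = s i (j + 1) := by
        by_contra hcon
        exact h0 (by unfold ind; rw [if_neg hcon])
      -- not both outside `S`
      have h5 : a ∈ S ∨ b ∈ S := by
        by_contra hcon
        push Not at hcon
        have h6 : ¬ ∃ a' < G.n, ∃ b' < G.n, i = G.c a' ∧
            (if j = G.c b then j + 1 else j) = G.c b' ∧ a' ∉ S ∧ b' ∉ S := by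
          rintro ⟨a', _, b', _, _, h7, _⟩
          split_ifs at h7 with h8
          · exact G.c_ne_near (a := b) (b := b') (d := 1) (by omega) (by omega) (by omega)
          · have h9 : j + 1 = G.c b := by omega
            have := near b b' j (Or.inr h9) (Or.inl h7)
            rw [← this] at h7
            exact h8 h7
        rcases h2 with h2 | h2
        · rw [if_pos h2] at h6
          have f1 := (hsf i j).2 ⟨a, ha, b, hb, h1, h2, hcon.1, hcon.2⟩
          have f2 := (hs i (j + 1)).2 h6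
          rw [f1, f2] at h4
          exact absurd h4 (by decide)
        · have h8 : j ≠ G.c b := by
            intro h; omega
          rw [if_neg h8] at h6
          have f1 := (hsf i (j + 1)).2 ⟨a, ha, b, hb, h1, h2, hcon.1, hcon.2⟩
          have f2 := (hs i j).2 h6
          rw [f1, f2] at h4
          exact absurd h4 (by decide)
      refine single _ a b ha hb ?_
      rcases h2 with h2 | h2
      · have : ind (i = G.c a ∧ j = G.c b ∧ X a b) = 1 := by
          unfold ind; rw [if_pos ⟨h1, h2, h3, h5⟩]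
        show 1 ≤ ind (i = G.c a ∧ j = G.c b ∧ X a b) + _
        omega
      · have : ind (i = G.c a ∧ j + 1 = G.c b ∧ X a b) = 1 := by
          unfold ind; rw [if_pos ⟨h1, h2, h3, h5⟩]
        show 1 ≤ _ + ind (i = G.c a ∧ j + 1 = G.c b ∧ X a b)
        omega
    · exfalso
      unfold defV at h0
      rw [dfc_of_not hm] at h0
      have h4 : s i j ≠ s i (j + 1) := by
        intro hcon
        exact h0 (by unfold ind; rw [if_neg (not_not.2 hcon)])
      apply hm
      have h5 : s i j = false ∨ s i (j + 1) = false := by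
        revert h4
        cases s i j <;> cases s i (j + 1) <;> simp
      rcases h5 with h5 | h5
      · obtain ⟨a, ha, b, hb, h6, h7, h8, h9⟩ := (hsf _ _).1 h5
        exact ⟨a, ha, b, hb, h6, Or.inl h7, hnadj a ha b hb h8 h9⟩
      · obtain ⟨a, ha, b, hb, h6, h7, h8, h9⟩ := (hsf _ _).1 h5
        exact ⟨a, ha, b, hb, h6, Or.inr h7, hnadj a ha b hb h8 h9⟩
  have hH : ∀ i j, G.defH s i j ≤
      ∑ a ∈ Finset.range G.n, ∑ b ∈ Finset.range G.n, TY i j a b := by
    intro i j
    by_cases h0 : G.defH s i j = 0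
    · rw [h0]; exact Nat.zero_le _
    refine (dle _ _ _).trans ?_
    by_cases hm : G.missH i j
    · obtain ⟨a, ha, h1, h2⟩ := hm
      unfold defH at h0
      rw [dfc_of ⟨a, ha, h1, h2⟩] at h0
      have h4 : s i j = s (i + 1) j := by
        by_contra hcon
        exact h0 (by unfold ind; rw [if_neg hcon])
      have h5 : a ∈ S := by
        by_contra hcon
        have h6 : ¬ ∃ a' < G.n, ∃ b' < G.n, (if i = G.c a then i + 1 else i) = G.c a' ∧
            j = G.c b' ∧ a' ∉ S ∧ b' ∉ S := by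
          rintro ⟨a', _, b', _, h7, _⟩
          split_ifs at h7 with h8
          · exact G.c_ne_near (a := a) (b := a') (d := 1) (by omega) (by omega) (by omega)
          · have h9 : i + 1 = G.c a := by omega
            have := near a a' i (Or.inr h9) (Or.inl h7)
            rw [← this] at h7
            exact h8 h7
        rcases h2 with h2 | h2
        · rw [if_pos h2] at h6
          have f1 := (hsf i j).2 ⟨a, ha, a, ha, h2, h1, hcon, hcon⟩
          have f2 := (hs (i + 1) j).2 h6
          rw [f1, f2] at h4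
          exact absurd h4 (by decide)
        · have h8 : i ≠ G.c a := by
            intro h; omega
          rw [if_neg h8] at h6
          have f1 := (hsf (i + 1) j).2 ⟨a, ha, a, ha, h2, h1, hcon, hcon⟩
          have f2 := (hs i j).2 h6
          rw [f1, f2] at h4
          exact absurd h4 (by decide)
      refine single _ a a ha ha ?_
      rcases h2 with h2 | h2
      · have : ind (j = G.c a ∧ i = G.c a ∧ Y a a) = 1 := by
          unfold ind; rw [if_pos ⟨h1, h2, Or.inr ⟨rfl, h5⟩⟩]
        show 1 ≤ ind (j = G.c a ∧ i = G.c a ∧ Y a a) + _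
        omega
      · have : ind (j = G.c a ∧ i + 1 = G.c a ∧ Y a a) = 1 := by
          unfold ind; rw [if_pos ⟨h1, h2, Or.inr ⟨rfl, h5⟩⟩]
        show 1 ≤ _ + ind (j = G.c a ∧ i + 1 = G.c a ∧ Y a a)
        omega
    · unfold defH at h0
      rw [dfc_of_not hm] at h0
      have h4 : s i j ≠ s (i + 1) j := by
        intro hcon
        exact h0 (by unfold ind; rw [if_neg (not_not.2 hcon)])
      have h5 : s i j = false ∨ s (i + 1) j = false := by
        revert h4
        cases s i j <;> cases s (i + 1) j <;> simp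
      rcases h5 with h5 | h5
      · obtain ⟨a, ha, b, hb, h6, h7, h8, h9⟩ := (hsf _ _).1 h5
        have hab : a ≠ b := by
          rintro rfl
          exact hm ⟨a, ha, h7, Or.inl h6⟩
        refine single _ a b ha hb ?_
        have : ind (j = G.c b ∧ i = G.c a ∧ Y a b) = 1 := by
          unfold ind; rw [if_pos ⟨h7, h6, Or.inl ⟨hab, h8, h9⟩⟩]
        show 1 ≤ ind (j = G.c b ∧ i = G.c a ∧ Y a b) + _
        omega
      · obtain ⟨a, ha, b, hb, h6, h7, h8, h9⟩ := (hsf _ _).1 h5
        have hab : a ≠ b := by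
          rintro rfl
          exact hm ⟨a, ha, h7, Or.inr h6⟩
        refine single _ a b ha hb ?_
        have : ind (j = G.c b ∧ i + 1 = G.c a ∧ Y a b) = 1 := by
          unfold ind; rw [if_pos ⟨h7, h6, Or.inl ⟨hab, h8, h9⟩⟩]
        show 1 ≤ _ + ind (j = G.c b ∧ i + 1 = G.c a ∧ Y a b)
        omega
  -- sums of indicators
  have sumind : ∀ (A : Finset ℕ) (f : ℕ → ℕ) (hf : Function.Injective f) (y : ℕ) (P : Prop),
      ∑ i ∈ A, ind (f i = y ∧ P) ≤ ind P := by
    intro A f hf y P
    by_cases hP : P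
    · have e : ∀ i ∈ A, ind (f i = y ∧ P) = if f i = y then 1 else 0 := by
        intro i _
        unfold ind
        simp [hP]
      rw [Finset.sum_congr rfl e, ← Finset.card_filter]
      have e2 : ind P = 1 := by unfold ind; rw [if_pos hP]
      rw [e2, Finset.card_le_one]
      intro x hx z hz
      rw [Finset.mem_filter] at hx hz
      exact hf (hx.2.trans hz.2.symm)
    · have e : ∀ i ∈ A, ind (f i = y ∧ P) = 0 := by
        intro i _
        unfold ind
        simp [hP]
      rw [Finset.sum_congr rfl e]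
      simp
  have hinj1 : Function.Injective (fun i : ℕ => i + 1) := fun a b h => by
    simpa using h
  have sumTX : ∀ a b, ∑ i ∈ Finset.Icc 1 G.N, ∑ j ∈ Finset.Ico 1 G.N, TX i j a b ≤
      2 * ind (X a b) := by
    intro a b
    have e1 : ∀ i, ∑ j ∈ Finset.Ico 1 G.N, TX i j a b ≤ 2 * ind (i = G.c a ∧ X a b) := by
      intro i
      have h1 := sumind (Finset.Ico 1 G.N) (fun j => j) (fun _ _ h => h) (G.c b)
        (i = G.c a ∧ X a b)
      have h2 := sumind (Finset.Ico 1 G.N) (fun j => j + 1) hinj1 (G.c b)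
        (i = G.c a ∧ X a b)
      have e3 : ∑ j ∈ Finset.Ico 1 G.N, TX i j a b =
          ∑ j ∈ Finset.Ico 1 G.N, ind (j = G.c b ∧ i = G.c a ∧ X a b) +
          ∑ j ∈ Finset.Ico 1 G.N, ind (j + 1 = G.c b ∧ i = G.c a ∧ X a b) := by
        rw [← Finset.sum_add_distrib]
        refine Finset.sum_congr rfl fun j _ => ?_
        show ind _ + ind _ = ind _ + ind _
        congr 1
        · unfold ind; congr 1; exact propext (by tauto)
        · unfold ind; congr 1; exact propext (by tauto)
      rw [e3]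
      omega
    refine (Finset.sum_le_sum fun i _ => e1 i).trans ?_
    rw [← Finset.mul_sum]
    exact Nat.mul_le_mul_left _ (sumind (Finset.Icc 1 G.N) (fun j => j) (fun _ _ h => h) (G.c a) _)
  have sumTY : ∀ a b, ∑ j ∈ Finset.Icc 1 G.N, ∑ i ∈ Finset.Ico 1 G.N, TY i j a b ≤
      2 * ind (Y a b) := by
    intro a b
    have e1 : ∀ j, ∑ i ∈ Finset.Ico 1 G.N, TY i j a b ≤ 2 * ind (j = G.c b ∧ Y a b) := by
      intro j
      have h1 := sumind (Finset.Ico 1 G.N) (fun j => j) (fun _ _ h => h) (G.c a)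
        (j = G.c b ∧ Y a b)
      have h2 := sumind (Finset.Ico 1 G.N) (fun j => j + 1) hinj1 (G.c a)
        (j = G.c b ∧ Y a b)
      have e3 : ∑ i ∈ Finset.Ico 1 G.N, TY i j a b =
          ∑ i ∈ Finset.Ico 1 G.N, ind (i = G.c a ∧ j = G.c b ∧ Y a b) +
          ∑ i ∈ Finset.Ico 1 G.N, ind (i + 1 = G.c a ∧ j = G.c b ∧ Y a b) := by
        rw [← Finset.sum_add_distrib]
        refine Finset.sum_congr rfl fun i _ => ?_
        show ind _ + ind _ = ind _ + ind _
        congr 1
        · unfold ind; congr 1; exact propext (by tauto)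
        · unfold ind; congr 1; exact propext (by tauto)
      rw [e3]
      omega
    refine (Finset.sum_le_sum fun i _ => e1 i).trans ?_
    rw [← Finset.mul_sum]
    exact Nat.mul_le_mul_left _ (sumind (Finset.Icc 1 G.N) (fun j => j) (fun _ _ h => h) (G.c b) _)
  have swap4 : ∀ (A B : Finset ℕ) (T : ℕ → ℕ → ℕ → ℕ → ℕ),
      ∑ i ∈ A, ∑ j ∈ B, ∑ a ∈ Finset.range G.n, ∑ b ∈ Finset.range G.n, T i j a b =
      ∑ a ∈ Finset.range G.n, ∑ b ∈ Finset.range G.n, ∑ i ∈ A, ∑ j ∈ B, T i j a b := by
    intro A B T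
    calc ∑ i ∈ A, ∑ j ∈ B, ∑ a ∈ Finset.range G.n, ∑ b ∈ Finset.range G.n, T i j a b
        = ∑ i ∈ A, ∑ a ∈ Finset.range G.n, ∑ j ∈ B, ∑ b ∈ Finset.range G.n, T i j a b := by
          refine Finset.sum_congr rfl fun i _ => ?_
          rw [Finset.sum_comm]
      _ = ∑ a ∈ Finset.range G.n, ∑ i ∈ A, ∑ j ∈ B, ∑ b ∈ Finset.range G.n, T i j a b := by
          rw [Finset.sum_comm]
      _ = ∑ a ∈ Finset.range G.n, ∑ b ∈ Finset.range G.n, ∑ i ∈ A, ∑ j ∈ B, T i j a b := by
          refine Finset.sum_congr rfl fun a _ => ?_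
          calc ∑ i ∈ A, ∑ j ∈ B, ∑ b ∈ Finset.range G.n, T i j a b
              = ∑ i ∈ A, ∑ b ∈ Finset.range G.n, ∑ j ∈ B, T i j a b := by
                refine Finset.sum_congr rfl fun i _ => ?_
                rw [Finset.sum_comm]
            _ = _ := by rw [Finset.sum_comm]
  have t1 : ∑ i ∈ Finset.Icc 1 G.N, ∑ j ∈ Finset.Ico 1 G.N, G.defV s i j ≤
      ∑ a ∈ Finset.range G.n, ∑ b ∈ Finset.range G.n, 2 * ind (X a b) := by
    refine (Finset.sum_le_sum fun i _ => Finset.sum_le_sum fun j _ => hV i j).trans ?_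
    rw [swap4 (Finset.Icc 1 G.N) (Finset.Ico 1 G.N) TX]
    exact Finset.sum_le_sum fun a _ => Finset.sum_le_sum fun b _ => sumTX a b
  have t2 : ∑ j ∈ Finset.Icc 1 G.N, ∑ i ∈ Finset.Ico 1 G.N, G.defH s i j ≤
      ∑ a ∈ Finset.range G.n, ∑ b ∈ Finset.range G.n, 2 * ind (Y a b) := by
    refine (Finset.sum_le_sum fun j _ => Finset.sum_le_sum fun i _ => hH i j).trans ?_
    rw [swap4 (Finset.Icc 1 G.N) (Finset.Ico 1 G.N) (fun j i a b => TY i j a b)]
    exact Finset.sum_le_sum fun a _ => Finset.sum_le_sum fun b _ => sumTY a b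
  have t3 : ∑ a ∈ Finset.range G.n, ∑ b ∈ Finset.range G.n, 2 * ind (X a b) +
      ∑ a ∈ Finset.range G.n, ∑ b ∈ Finset.range G.n, 2 * ind (Y a b) ≤
      2 * G.nn + 4 * ∑ a ∈ Finset.range G.n, ∑ b ∈ Finset.range G.n, ind (b = a ∧ a ∈ S) := by
    unfold nn
    rw [Finset.mul_sum, Finset.mul_sum, ← Finset.sum_add_distrib, ← Finset.sum_add_distrib]
    refine Finset.sum_le_sum fun a ha => ?_
    rw [Finset.mul_sum, Finset.mul_sum, ← Finset.sum_add_distrib, ← Finset.sum_add_distrib]
    refine Finset.sum_le_sum fun b hb => ?_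
    rw [Finset.mem_range] at ha hb
    simp only [hX, hY]
    by_cases hab : a = b
    · subst hab
      by_cases haS : a ∈ S <;> simp [ind, haS, G.irrefl]
    · by_cases haS : a ∈ S
      · by_cases hadj : G.adj a b = false <;> simp [ind, haS, hab, Ne.symm hab, hadj]
      · by_cases hbS : b ∈ S
        · by_cases hadj : G.adj a b = false <;> simp [ind, haS, hbS, hab, Ne.symm hab, hadj]
        · have hadj := hnadj a ha b hb haS hbS
          simp [ind, haS, hbS, hab, Ne.symm hab, hadj]
  have t4 : ∑ a ∈ Finset.range G.n, ∑ b ∈ Finset.range G.n, ind (b = a ∧ a ∈ S) ≤ S.card := by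
    calc ∑ a ∈ Finset.range G.n, ∑ b ∈ Finset.range G.n, ind (b = a ∧ a ∈ S)
        ≤ ∑ a ∈ Finset.range G.n, ind (a ∈ S) :=
          Finset.sum_le_sum fun a _ => sumind _ (fun j => j) (fun _ _ h => h) a _
      _ = ((Finset.range G.n).filter (fun a => a ∈ S)).card := by
          rw [Finset.card_filter]
          refine Finset.sum_congr rfl fun a _ => ?_
          unfold ind
          congr
      _ ≤ S.card := Finset.card_le_card fun a ha => (Finset.mem_filter.1 ha).2
  unfold deficit
  omega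

end Data

end Pool.Agent.H54.Sw
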