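import Pool.Agent.H54.Sw.Geom

/-!
# Counting the switches of the grid drawing
-/

namespace Pool.Agent.H54.Sw

open Finset

theorem ite_eq_ind (p : Prop) [Decidable p] : (if p then 1 else 0) = ind p := by
  by_cases h : p
  · rw [if_pos h, ind_pos h]
  · rw [if_neg h, ind_neg h]

namespace Grid

variable {K : Grid}

/-- the line `L b i` is crossed at height `y` -/
def Oc (K : Grid) (b : Bool) (i y : ℕ) : Prop :=
  (∃ j, 1 ≤ j ∧ j ≤ K.N ∧ y = 2 * j) ∨ (∃ j, 1 ≤ j ∧ j < K.N ∧ ¬ K.miss b i j ∧ y = 2 * j + 1)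

/-- the edge crossing the line `L b i` at height `y` -/
def X (K : Grid) (b : Bool) (i y : ℕ) : Seg :=
  if y % 2 = 0 then K.L (!b) (y / 2) else D b i (y / 2)

theorem X_even (b : Bool) (i j : ℕ) : K.X b i (2 * j) = K.L (!b) j := by
  unfold X
  rw [if_pos (by omega)]
  congr 1
  omega

theorem X_odd (b : Bool) (i j : ℕ) : K.X b i (2 * j + 1) = D b i j := by
  unfold X
  rw [if_neg (by omega)]
  congr 1
  omega

/-- the ends of `X` -/
def X1 (K : Grid) (i y : ℕ) : ℕ := if y % 2 = 0 then 1 else 2 * i - 1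
def X2 (K : Grid) (i y : ℕ) : ℕ := if y % 2 = 0 then 2 * K.N + 1 else 2 * i + 1

theorem X_eq (b : Bool) (i y : ℕ) : K.X b i y = sg (!b) y (K.X1 i y) (K.X2 i y) := by
  unfold X X1 X2 L D
  split_ifs with h
  · congr 1; omega
  · congr 1; omega

theorem X_lt {i : ℕ} (hi : 1 ≤ i) (y : ℕ) : K.X1 i y < K.X2 i y := by
  unfold X1 X2
  have := K.hN
  split_ifs <;> omega

theorem X_EV {b : Bool} {i y : ℕ} (hi : 1 ≤ i) (hi' : i ≤ K.N) (h : K.Oc b i y) :
    K.EV (!b) y (K.X1 i y) (K.X2 i y) ∧ K.X1 i y < 2 * i ∧ 2 * i < K.X2 i y ∧ 1 < y ∧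
      y < 2 * K.N + 1 := by
  unfold X1 X2
  have := K.hN
  rcases h with ⟨j, h1, h2, rfl⟩ | ⟨j, h1, h2, h3, rfl⟩
  · rw [if_pos (by omega), if_pos (by omega)]
    exact ⟨Or.inl ⟨j, h1, h2, rfl, rfl, rfl⟩, by omega, by omega, by omega, by omega⟩
  · rw [if_neg (by omega), if_neg (by omega)]
    refine ⟨Or.inr (Or.inl ⟨i, j, hi, hi', h1, h2, ?_, rfl, rfl, rfl⟩), by omega, by omega,
      by omega, by omega⟩
    rwa [Bool.not_not]

theorem L_EV (K : Grid) (b : Bool) {i : ℕ} (hi : 1 ≤ i) (hi' : i ≤ K.N) :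
    K.EV b (2 * i) 1 (2 * K.N + 1) := Or.inl ⟨i, hi, hi', rfl, rfl, rfl⟩

theorem X_inj {b : Bool} {i y y' : ℕ} (hi : 1 ≤ i) (h : K.X b i y = K.X b i y') : y = y' := by
  rw [X_eq, X_eq] at h
  exact (sg_inj (X_lt hi y) (X_lt hi y') h).2.1

theorem X_ne_L {b : Bool} {i y : ℕ} (hi : 1 ≤ i) : K.X b i y ≠ K.L b i := by
  intro h
  rw [X_eq] at h
  unfold L at h
  have := (sg_inj (X_lt hi y) (by have := K.hN; omega) h).1
  cases b <;> simp at this

theorem L_inj {b b' : Bool} {i i' : ℕ} (h : K.L b i = K.L b' i') : b = b' ∧ i = i' := by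
  unfold L at h
  have h1 := sg_inj (by have := K.hN; omega) (by have := K.hN; omega) h
  exact ⟨h1.1, by omega⟩

section drawing

variable {E : List Seg} (hE : ∀ e, e ∈ E ↔ K.IsE e)

include hE

theorem cross_line {b : Bool} {i : ℕ} (hi : 1 ≤ i) (hi' : i ≤ K.N) {f : Seg} (hf : f ∈ E)
    (hne : f ≠ K.L b i) {q : ℝ × ℝ} (hq : q ∈ curve (K.L b i) ∩ curve f) :
    ∃ y, K.Oc b i y ∧ f = K.X b i y ∧ q = mkp b ((2 * i : ℕ) : ℝ) (y : ℝ) := by
  obtain ⟨b', x', y1', y2', h2, rfl⟩ := (hE _).1 hf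
  have h1 := K.L_EV b hi hi'
  by_cases hb : b' = b
  · subst hb
    have := h1.same_empty h2 (Ne.symm hne)
    rw [Set.eq_empty_iff_forall_notMem] at this
    exact absurd hq (this q)
  · have hb' : b' = !b := by cases b <;> cases b' <;> simp_all
    subst hb'
    unfold L at hq
    rw [mem_cross h1.lt h2.lt] at hq
    obtain ⟨q1, q2, q3, q4, q5, q6⟩ := hq
    refine ⟨x', ?_, ?_, ?_⟩
    · rcases h2 with ⟨j, g1, g2, g3, g4, g5⟩ | ⟨i', j, g1, g2, g3, g4, g8, g5, g6, g7⟩ |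
        ⟨g1, g2, g3, g4⟩
      · exact Or.inl ⟨j, g1, g2, g3⟩
      · have : i' = i := by omega
        subst this
        rw [Bool.not_not] at g8
        exact Or.inr ⟨j, g3, g4, g8, g5⟩
      · omega
    · rw [X_eq]
      unfold X1 X2
      rcases h2 with ⟨j, g1, g2, g3, g4, g5⟩ | ⟨i', j, g1, g2, g3, g4, g8, g5, g6, g7⟩ |
        ⟨g1, g2, g3, g4⟩
      · rw [if_pos (by omega), if_pos (by omega), g4, g5]
      · have : i' = i := by omega
        subst this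
        rw [if_neg (by omega), if_neg (by omega), g6, g7]
      · omega
    · refine co_ext (b := b) ?_ ?_
      · rw [q1, co_mkp]
      · rw [q2, co_not_mkp]

theorem cross_X {b : Bool} {i y : ℕ} (hi : 1 ≤ i) (hi' : i ≤ K.N) (h : K.Oc b i y) :
    K.X b i y ∈ E ∧ mkp b ((2 * i : ℕ) : ℝ) (y : ℝ) ∈ curve (K.L b i) ∩ curve (K.X b i y) := by
  obtain ⟨h1, h2, h3, h4, h5⟩ := X_EV hi hi' h
  refine ⟨(hE _).2 ⟨_, _, _, _, h1, X_eq b i y⟩, ?_⟩
  rw [X_eq]
  unfold L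
  rw [mem_cross (K.L_EV b hi hi').lt h1.lt]
  exact ⟨co_mkp _ _ _, co_not_mkp _ _ _, h4, h5, h2, h3⟩

theorem mem_openSegment_mkp {b : Bool} {x : ℝ} {y y' : ℕ} (hy : y ≠ y') (q : ℝ × ℝ) :
    q ∈ openSegment ℝ (mkp b x y) (mkp b x y') ↔
      co b q = x ∧ ((min y y' : ℕ) : ℝ) < co (!b) q ∧ co (!b) q < ((max y y' : ℕ) : ℝ) := by
  rw [mem_openSegment_co (b := b) (by rw [co_mkp, co_mkp]), co_mkp, co_not_mkp, co_not_mkp,
    openSegment_eq_Ioo' (by exact_mod_cast hy), Set.mem_Ioo, Nat.cast_min, Nat.cast_max]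

/-- consecutive crossings on a long line -/
theorem consec_line {b : Bool} {i : ℕ} (hi : 1 ≤ i) (hi' : i ≤ K.N) (f g : Seg) :
    Consec E (K.L b i) f g ↔ ∃ y y', K.Oc b i y ∧ K.Oc b i y' ∧ f = K.X b i y ∧ g = K.X b i y' ∧
      y ≠ y' ∧ ∀ z, K.Oc b i z → ¬ (min y y' < z ∧ z < max y y') := by
  constructor
  · rintro ⟨he, hf, hg, hfe, hge, hfg, x, hx, x', hx', hall⟩
    obtain ⟨y, hy1, hy2, hy3⟩ := cross_line hE hi hi' hf hfe hx
    obtain ⟨y', hy1', hy2', hy3'⟩ := cross_line hE hi hi' hg hge hx'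
    have hyy : y ≠ y' := by
      rintro rfl
      exact hfg (hy2.trans hy2'.symm)
    refine ⟨y, y', hy1, hy1', hy2, hy2', hyy, ?_⟩
    rintro z hz ⟨hz1, hz2⟩
    obtain ⟨h1, h2⟩ := cross_X hE hi hi' hz
    have h3 := hall _ h1 (X_ne_L hi)
    rw [Set.eq_empty_iff_forall_notMem] at h3
    apply h3 (mkp b ((2 * i : ℕ) : ℝ) (z : ℝ))
    refine ⟨h2, ?_⟩
    rw [hy3, hy3', mem_openSegment_mkp hE hyy, co_mkp, co_not_mkp]
    exact ⟨rfl, by exact_mod_cast hz1, by exact_mod_cast hz2⟩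
  · rintro ⟨y, y', hy, hy', rfl, rfl, hyy, hall⟩
    obtain ⟨h1, h2⟩ := cross_X hE hi hi' hy
    obtain ⟨h1', h2'⟩ := cross_X hE hi hi' hy'
    refine ⟨(hE _).2 ⟨_, _, _, _, K.L_EV b hi hi', rfl⟩, h1, h1', X_ne_L hi, X_ne_L hi,
      fun h => hyy (X_inj hi h), _, h2, _, h2', ?_⟩
    intro h hh hne
    rw [Set.eq_empty_iff_forall_notMem]
    rintro q ⟨hq, hq2⟩
    obtain ⟨z, hz1, hz2, hz3⟩ := cross_line hE hi hi' hh hne hq
    rw [mem_openSegment_mkp hE hyy, hz3, co_mkp, co_not_mkp] at hq2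
    exact hall z hz1 ⟨by exact_mod_cast hq2.2.1, by exact_mod_cast hq2.2.2⟩

/-- only long lines have consecutive crossings -/
theorem consec_only {e f g : Seg} (h : Consec E e f g) :
    ∃ b i, 1 ≤ i ∧ i ≤ K.N ∧ e = K.L b i := by
  obtain ⟨he, hf, hg, hfe, hge, hfg, x, hx, x', hx', -⟩ := h
  obtain ⟨b, x0, y1, y2, h1, rfl⟩ := (hE _).1 he
  obtain ⟨b', x1, z1, z2, h2, rfl⟩ := (hE _).1 hf
  obtain ⟨b'', x2, w1, w2, h3, rfl⟩ := (hE _).1 hg
  have hb' : b' = !b := by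
    by_contra hcon
    have : b' = b := by cases b <;> cases b' <;> simp_all
    subst this
    have := h1.same_empty h2 (Ne.symm hfe)
    rw [Set.eq_empty_iff_forall_notMem] at this
    exact this _ hx
  have hb'' : b'' = !b := by
    by_contra hcon
    have : b'' = b := by cases b <;> cases b'' <;> simp_all
    subst this
    have := h1.same_empty h3 (Ne.symm hge)
    rw [Set.eq_empty_iff_forall_notMem] at this
    exact this _ hx'
  subst hb' hb''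
  rw [mem_cross h1.lt h2.lt] at hx
  rw [mem_cross h1.lt h3.lt] at hx'
  obtain ⟨-, -, a1, a2, a3, a4⟩ := hx
  obtain ⟨-, -, c1, c2, c3, c4⟩ := hx'
  rcases h1 with ⟨i, g1, g2, g3, g4, g5⟩ | ⟨i, j, g1, g2, g3, g4, g8, g5, g6, g7⟩ |
    ⟨g1, g2, g3, g4⟩
  · exact ⟨b, i, g1, g2, by rw [g3, g4, g5]; rfl⟩
  · exfalso
    have e1 : x1 = 2 * i := by omega
    have e2 : x2 = 2 * i := by omega
    have f1 : z1 = 1 ∧ z2 = 2 * K.N + 1 := by
      rcases h2 with ⟨i', k1, k2, k3, k4, k5⟩ | ⟨i', j', k1, k2, k3, k4, k8, k5, k6, k7⟩ |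
        ⟨k1, k2, k3, k4⟩ <;> omega
    have f2 : w1 = 1 ∧ w2 = 2 * K.N + 1 := by
      rcases h3 with ⟨i', k1, k2, k3, k4, k5⟩ | ⟨i', j', k1, k2, k3, k4, k8, k5, k6, k7⟩ |
        ⟨k1, k2, k3, k4⟩ <;> omega
    apply hfg
    rw [e1, e2, f1.1, f1.2, f2.1, f2.2]
  · exfalso
    omega

end drawing

open Classical in
/-- heights of consecutive crossings in the gap number `j` -/
noncomputable def Q (m : Prop) (j : ℕ) : Finset (ℕ × ℕ) :=
  if m then {(2 * j, 2 * j + 2), (2 * j + 2, 2 * j)}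
  else {(2 * j, 2 * j + 1), (2 * j + 1, 2 * j), (2 * j + 1, 2 * j + 2), (2 * j + 2, 2 * j + 1)}

theorem consec_heights {b : Bool} {i : ℕ} (y y' : ℕ) :
    (K.Oc b i y ∧ K.Oc b i y' ∧ y ≠ y' ∧ ∀ z, K.Oc b i z → ¬ (min y y' < z ∧ z < max y y')) ↔
      ∃ j, 1 ≤ j ∧ j < K.N ∧ (y, y') ∈ Q (K.miss b i j) j := by
  have key : ∀ y y', y < y' → ((K.Oc b i y ∧ K.Oc b i y' ∧ ∀ z, K.Oc b i z → ¬ (y < z ∧ z < y')) ↔
      ∃ j, 1 ≤ j ∧ j < K.N ∧ ((K.miss b i j ∧ y = 2 * j ∧ y' = 2 * j + 2) ∨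
        (¬ K.miss b i j ∧ ((y = 2 * j ∧ y' = 2 * j + 1) ∨ (y = 2 * j + 1 ∧ y' = 2 * j + 2))))) := by
    intro y y' hlt
    constructor
    · rintro ⟨h1, h2, h3⟩
      have hy' : y' ≤ 2 * K.N := by
        rcases h2 with ⟨j, g1, g2, rfl⟩ | ⟨j, g1, g2, g3, rfl⟩ <;> omega
      rcases h1 with ⟨j, g1, g2, rfl⟩ | ⟨j, g1, g2, g3, rfl⟩
      · have hjN : j < K.N := by omega
        by_cases hm : K.miss b i j
        · refine ⟨j, g1, hjN, Or.inl ⟨hm, rfl, ?_⟩⟩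
          have n1 : y' ≠ 2 * j + 1 := by
            rintro rfl
            rcases h2 with ⟨j', k1, k2, k3⟩ | ⟨j', k1, k2, k3, k4⟩
            · omega
            · have : j' = j := by omega
              subst this
              exact k3 hm
          by_contra hcon
          exact h3 (2 * j + 2) (Or.inl ⟨j + 1, by omega, by omega, by omega⟩) ⟨by omega, by omega⟩
        · refine ⟨j, g1, hjN, Or.inr ⟨hm, Or.inl ⟨rfl, ?_⟩⟩⟩
          by_contra hcon
          exact h3 (2 * j + 1) (Or.inr ⟨j, g1, hjN, hm, rfl⟩) ⟨by omega, by omega⟩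
      · refine ⟨j, g1, g2, Or.inr ⟨g3, Or.inr ⟨rfl, ?_⟩⟩⟩
        by_contra hcon
        exact h3 (2 * j + 2) (Or.inl ⟨j + 1, by omega, by omega, by omega⟩) ⟨by omega, by omega⟩
    · rintro ⟨j, g1, g2, ⟨hm, rfl, rfl⟩ | ⟨hm, ⟨rfl, rfl⟩ | ⟨rfl, rfl⟩⟩⟩
      · refine ⟨Or.inl ⟨j, g1, g2.le, rfl⟩, Or.inl ⟨j + 1, by omega, by omega, by omega⟩, ?_⟩
        rintro z hz ⟨z1, z2⟩
        have : z = 2 * j + 1 := by omega
        subst this
        rcases hz with ⟨j', k1, k2, k3⟩ | ⟨j', k1, k2, k3, k4⟩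
        · omega
        · have : j' = j := by omega
          subst this
          exact k3 hm
      · refine ⟨Or.inl ⟨j, g1, g2.le, rfl⟩, Or.inr ⟨j, g1, g2, hm, rfl⟩, ?_⟩
        rintro z hz ⟨z1, z2⟩
        omega
      · refine ⟨Or.inr ⟨j, g1, g2, hm, rfl⟩, Or.inl ⟨j + 1, by omega, by omega, by omega⟩, ?_⟩
        rintro z hz ⟨z1, z2⟩
        omega
  have hQ : ∀ j, (y, y') ∈ Q (K.miss b i j) j ↔
      ((K.miss b i j ∧ ((y = 2 * j ∧ y' = 2 * j + 2) ∨ (y' = 2 * j ∧ y = 2 * j + 2))) ∨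
        (¬ K.miss b i j ∧ ((y = 2 * j ∧ y' = 2 * j + 1) ∨ (y = 2 * j + 1 ∧ y' = 2 * j + 2) ∨
          (y' = 2 * j ∧ y = 2 * j + 1) ∨ (y' = 2 * j + 1 ∧ y = 2 * j + 2)))) := by
    intro j
    unfold Q
    by_cases hm : K.miss b i j
    · simp only [hm, if_true, Finset.mem_insert, Finset.mem_singleton, Prod.mk.injEq, true_and,
        not_true_eq_false, false_and, or_false]
      exact or_congr Iff.rfl and_comm
    · simp only [hm, if_false, Finset.mem_insert, Finset.mem_singleton, Prod.mk.injEq, true_and,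
        not_false_eq_true, false_and, false_or]
      constructor
      · rintro (h | h | h | h)
        · exact Or.inl h
        · exact Or.inr (Or.inr (Or.inl ⟨h.2, h.1⟩))
        · exact Or.inr (Or.inl h)
        · exact Or.inr (Or.inr (Or.inr ⟨h.2, h.1⟩))
      · rintro (h | h | h | h)
        · exact Or.inl h
        · exact Or.inr (Or.inr (Or.inl h))
        · exact Or.inr (Or.inl ⟨h.2, h.1⟩)
        · exact Or.inr (Or.inr (Or.inr ⟨h.2, h.1⟩))
  rcases Nat.lt_trichotomy y y' with h | h | h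
  · have k := key y y' h
    rw [min_eq_left h.le, max_eq_right h.le]
    have e : (K.Oc b i y ∧ K.Oc b i y' ∧ y ≠ y' ∧ ∀ z, K.Oc b i z → ¬ (y < z ∧ z < y')) ↔
        (K.Oc b i y ∧ K.Oc b i y' ∧ ∀ z, K.Oc b i z → ¬ (y < z ∧ z < y')) := by
      have : y ≠ y' := by omega
      tauto
    rw [e, k]
    refine exists_congr fun j => ?_
    rw [hQ]
    constructor
    · rintro ⟨h1, h2, h3⟩
      refine ⟨h1, h2, ?_⟩
      rcases h3 with ⟨hm, h4⟩ | ⟨hm, h4 | h4⟩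
      · exact Or.inl ⟨hm, Or.inl h4⟩
      · exact Or.inr ⟨hm, Or.inl h4⟩
      · exact Or.inr ⟨hm, Or.inr (Or.inl h4)⟩
    · rintro ⟨h1, h2, h3⟩
      refine ⟨h1, h2, ?_⟩
      rcases h3 with ⟨hm, h4 | h4⟩ | ⟨hm, h4 | h4 | h4 | h4⟩
      · exact Or.inl ⟨hm, h4⟩
      · omega
      · exact Or.inr ⟨hm, Or.inl h4⟩
      · exact Or.inr ⟨hm, Or.inr h4⟩
      · omega
      · omega
  · subst h
    constructor
    · rintro ⟨_, _, h3, _⟩
      exact absurd rfl h3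
    · rintro ⟨j, h1, h2, h3⟩
      rw [hQ] at h3
      omega
  · have k := key y' y h
    rw [min_eq_right h.le, max_eq_left h.le]
    have e : (K.Oc b i y ∧ K.Oc b i y' ∧ y ≠ y' ∧ ∀ z, K.Oc b i z → ¬ (y' < z ∧ z < y)) ↔
        (K.Oc b i y' ∧ K.Oc b i y ∧ ∀ z, K.Oc b i z → ¬ (y' < z ∧ z < y)) := by
      have : y ≠ y' := by omega
      tauto
    rw [e, k]
    refine exists_congr fun j => ?_
    rw [hQ]
    constructor
    · rintro ⟨h1, h2, h3⟩
      refine ⟨h1, h2, ?_⟩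
      rcases h3 with ⟨hm, h4⟩ | ⟨hm, h4 | h4⟩
      · exact Or.inl ⟨hm, Or.inr h4⟩
      · exact Or.inr ⟨hm, Or.inr (Or.inr (Or.inl h4))⟩
      · exact Or.inr ⟨hm, Or.inr (Or.inr (Or.inr h4))⟩
    · rintro ⟨h1, h2, h3⟩
      refine ⟨h1, h2, ?_⟩
      rcases h3 with ⟨hm, h4 | h4⟩ | ⟨hm, h4 | h4 | h4 | h4⟩
      · omega
      · exact Or.inl ⟨hm, h4⟩
      · omega
      · omega
      · exact Or.inr ⟨hm, Or.inl h4⟩
      · exact Or.inr ⟨hm, Or.inr h4⟩

open Classical in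
/-- the switches in a gap -/
noncomputable def Qs (K : Grid) (σ : Seg → ℕ) (b : Bool) (i j : ℕ) : Finset (ℕ × ℕ) :=
  (Q (K.miss b i j) j).filter
    (fun p => σ (K.L b i) < σ (K.X b i p.1) ∧ σ (K.X b i p.2) < σ (K.L b i))

theorem gap_unique {m : Prop} {j j' y y' : ℕ} {m' : Prop} (h : (y, y') ∈ Q m j)
    (h' : (y, y') ∈ Q m' j') : j = j' := by
  unfold Q at h h'
  split_ifs at h h' <;>
    simp only [Finset.mem_insert, Finset.mem_singleton, Prod.mk.injEq] at h h' <;> omega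

section drawing

variable {E : List Seg} (hE : ∀ e, e ∈ E ↔ K.IsE e)

include hE

/-- the number of switches is the sum over all gaps -/
theorem switches_eq_sum (σ : Seg → ℕ) : switches E σ =
    ∑ b : Bool, ∑ i ∈ Finset.Icc 1 K.N, ∑ j ∈ Finset.Ico 1 K.N, (K.Qs σ b i j).card := by
  classical
  set A : Finset (Σ _ : Bool × ℕ × ℕ, ℕ × ℕ) :=
    ((Finset.univ : Finset Bool) ×ˢ (Finset.Icc 1 K.N ×ˢ Finset.Ico 1 K.N)).sigma
      (fun p => K.Qs σ p.1 p.2.1 p.2.2) with hA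
  set F : (Σ _ : Bool × ℕ × ℕ, ℕ × ℕ) → Seg × Seg × Seg := fun t =>
    (K.L t.1.1 t.1.2.1, K.X t.1.1 t.1.2.1 t.2.1, K.X t.1.1 t.1.2.1 t.2.2) with hF
  have hset : {t : Seg × Seg × Seg | Consec E t.1 t.2.1 t.2.2 ∧ σ t.1 < σ t.2.1 ∧
      σ t.2.2 < σ t.1} = ((A.image F : Finset (Seg × Seg × Seg)) : Set (Seg × Seg × Seg)) := by
    ext ⟨e, f, g⟩
    simp only [Set.mem_ofPred_eq, Finset.coe_image, Set.mem_image, Finset.mem_coe]
    constructor
    · rintro ⟨h1, h2, h3⟩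
      obtain ⟨b, i, hi, hi', rfl⟩ := consec_only hE h1
      obtain ⟨y, y', g1, g2, rfl, rfl, g5, g6⟩ := (consec_line hE hi hi' _ _).1 h1
      obtain ⟨j, hj, hj', hj2⟩ := (consec_heights y y').1 ⟨g1, g2, g5, g6⟩
      refine ⟨⟨(b, i, j), (y, y')⟩, ?_, rfl⟩
      rw [hA, Finset.mem_sigma]
      refine ⟨?_, ?_⟩
      · simp only [Finset.mem_product, Finset.mem_univ, Finset.mem_Icc, Finset.mem_Ico, true_and]
        exact ⟨⟨hi, hi'⟩, hj, hj'⟩
      · exact Finset.mem_filter.2 ⟨hj2, h2, h3⟩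
    · rintro ⟨⟨⟨b, i, j⟩, ⟨y, y'⟩⟩, h1, h2⟩
      rw [hA, Finset.mem_sigma] at h1
      obtain ⟨h3, h4⟩ := h1
      simp only [Finset.mem_product, Finset.mem_univ, Finset.mem_Icc, Finset.mem_Ico,
        true_and] at h3
      obtain ⟨⟨hi, hi'⟩, hj, hj'⟩ := h3
      obtain ⟨h5, h6, h7⟩ := Finset.mem_filter.1 h4
      obtain ⟨g1, g2, g3, g4⟩ := (consec_heights (K := K) (b := b) (i := i) y y').2
        ⟨j, hj, hj', h5⟩
      simp only [hF, Prod.mk.injEq] at h2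
      obtain ⟨rfl, rfl, rfl⟩ := h2
      exact ⟨(consec_line hE hi hi' _ _).2 ⟨y, y', g1, g2, rfl, rfl, g3, g4⟩, h6, h7⟩
  have hinj : Set.InjOn F (A : Set (Σ _ : Bool × ℕ × ℕ, ℕ × ℕ)) := by
    rintro ⟨⟨b, i, j⟩, ⟨y, y'⟩⟩ h1 ⟨⟨b', i', j'⟩, ⟨z, z'⟩⟩ h2 h3
    rw [Finset.mem_coe, hA, Finset.mem_sigma] at h1 h2
    simp only [Finset.mem_product, Finset.mem_univ, Finset.mem_Icc, Finset.mem_Ico,
        true_and] at h1 h2
    simp only [hF, Prod.mk.injEq] at h3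
    obtain ⟨h4, h5, h6⟩ := h3
    obtain ⟨rfl, rfl⟩ := L_inj h4
    have e1 := X_inj h1.1.1.1 h5
    have e2 := X_inj h1.1.1.1 h6
    subst e1 e2
    have h7 := (Finset.mem_filter.1 h1.2).1
    have h8 := (Finset.mem_filter.1 h2.2).1
    have := gap_unique h7 h8
    subst this
    rfl
  unfold switches
  have e1 : Nat.card {t : Seg × Seg × Seg // Consec E t.1 t.2.1 t.2.2 ∧ σ t.1 < σ t.2.1 ∧
      σ t.2.2 < σ t.1} = Nat.card ({t : Seg × Seg × Seg | Consec E t.1 t.2.1 t.2.2 ∧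
        σ t.1 < σ t.2.1 ∧ σ t.2.2 < σ t.1} : Set (Seg × Seg × Seg)) := rfl
  rw [e1, hset]
  rw [Nat.card_coe_set_eq, Set.ncard_coe_finset, Finset.card_image_of_injOn hinj, hA,
    Finset.card_sigma, Finset.sum_product]
  refine Finset.sum_congr rfl fun b _ => ?_
  rw [Finset.sum_product]

end drawing

/-- sign: the line `L b i` is above the line `L (!b) j` -/
def sgn (K : Grid) (σ : Seg → ℕ) (b : Bool) (i j : ℕ) : Bool :=
  decide (σ (K.L (!b) j) < σ (K.L b i))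

open Classical in
/-- maximal number of switches in a gap -/
noncomputable def mx (m : Prop) : ℕ := if m then 1 else 2

theorem gap_count (σ : Seg → ℕ) {b : Bool} {i j : ℕ}
    (h0 : σ (K.L (!b) j) ≠ σ (K.L b i)) (h1 : σ (K.L (!b) (j + 1)) ≠ σ (K.L b i))
    (h2 : ¬ K.miss b i j → σ (D b i j) ≠ σ (K.L b i)) :
    (K.Qs σ b i j).card + dfc (K.miss b i j) (K.sgn σ b i j) (K.sgn σ b i (j + 1)) ≤
      mx (K.miss b i j) ∧
    ((¬ K.miss b i j → (σ (D b i j) < σ (K.L b i) ↔ ¬ σ (K.L (!b) j) < σ (K.L b i))) →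
      (K.Qs σ b i j).card + dfc (K.miss b i j) (K.sgn σ b i j) (K.sgn σ b i (j + 1)) =
      mx (K.miss b i j)) := by
  classical
  have e0 : K.X b i (2 * j) = K.L (!b) j := X_even b i j
  have e1 : K.X b i (2 * j + 1) = D b i j := X_odd b i j
  have e2 : K.X b i (2 * j + 2) = K.L (!b) (j + 1) := X_even b i (j + 1)
  unfold Qs Q mx sgn
  generalize hl : σ (K.L b i) = l at *
  generalize ha : σ (K.L (!b) j) = a at *
  generalize hc : σ (K.L (!b) (j + 1)) = c at *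
  generalize hd : σ (D b i j) = d at *
  by_cases hm : K.miss b i j
  · have hcard : (({(2 * j, 2 * j + 2), (2 * j + 2, 2 * j)} : Finset (ℕ × ℕ)).filter
        (fun p => l < σ (K.X b i p.1) ∧ σ (K.X b i p.2) < l)).card =
        ind (l < a ∧ c < l) + ind (l < c ∧ a < l) := by
      rw [Finset.card_filter, Finset.sum_insert (by simp), Finset.sum_singleton]
      simp only [e0, e2, ha, hc, ite_eq_ind]
    simp only [hm, if_true, not_true_eq_false, IsEmpty.forall_iff, forall_true_left]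
    rw [hcard, dfc_of trivial]
    rcases Nat.lt_or_gt_of_ne h0 with k0 | k0 <;> rcases Nat.lt_or_gt_of_ne h1 with k1 | k1 <;>
      simp [ind, k0, k1, not_lt.2 k0.le, not_lt.2 k1.le]
  · have hcard : (({(2 * j, 2 * j + 1), (2 * j + 1, 2 * j), (2 * j + 1, 2 * j + 2),
        (2 * j + 2, 2 * j + 1)} : Finset (ℕ × ℕ)).filter
        (fun p => l < σ (K.X b i p.1) ∧ σ (K.X b i p.2) < l)).card =
        ind (l < a ∧ d < l) + (ind (l < d ∧ a < l) + (ind (l < d ∧ c < l) +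
          ind (l < c ∧ d < l))) := by
      rw [Finset.card_filter, Finset.sum_insert (by simp), Finset.sum_insert (by simp),
        Finset.sum_insert (by simp), Finset.sum_singleton]
      simp only [e0, e1, e2, ha, hc, hd, ite_eq_ind]
    have h2' := h2 hm
    simp only [hm, if_false, not_false_eq_true, forall_true_left]
    rw [hcard, dfc_of_not (by simp)]
    rcases Nat.lt_or_gt_of_ne h0 with k0 | k0 <;> rcases Nat.lt_or_gt_of_ne h1 with k1 | k1 <;>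
      rcases Nat.lt_or_gt_of_ne h2' with k2 | k2 <;>
      simp [ind, k0, k1, k2, not_lt.2 k0.le, not_lt.2 k1.le, not_lt.2 k2.le]

end Grid

end Pool.Agent.H54.Sw
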