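import Mathlib

/-!
# Stacked edge casings of straight-line drawings: definitions

A drawing is a list of edges; an edge is given by its two end points, which have natural number
coordinates, and is drawn as a straight segment.
-/

namespace Pool.Agent.H54.Sw

/-- A point with natural number coordinates. -/
abbrev Pt := ℕ × ℕ

/-- An edge, given by its two end points. It is drawn as the straight segment between them. -/
abbrev Seg := Pt × Pt

/-- The point of the real plane. -/
def pt (p : Pt) : ℝ × ℝ := ((p.1 : ℝ), (p.2 : ℝ))

/-- The curve by which the edge `e` is drawn, without its end points. -/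
def curve (e : Seg) : Set (ℝ × ℝ) := openSegment ℝ (pt e.1) (pt e.2)

/-- `p` is an end point of the edge `e`. -/
def IsEnd (p : Pt) (e : Seg) : Prop := p = e.1 ∨ p = e.2

/-- The vertices of the graph are the end points of the edges. -/
def IsVertex (E : List Seg) (p : Pt) : Prop := ∃ e ∈ E, IsEnd p e

/-- The graph which is drawn. -/
def graph (E : List Seg) : SimpleGraph {p : Pt // IsVertex E p} :=
  SimpleGraph.fromRel fun p q => ((p : Pt), (q : Pt)) ∈ E

/-- `E` is a drawing, by straight segments, of a finite, simple, connected graph: no edge passes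
through a vertex other than its end points, two edges cross at most once, edges sharing an end
point do not cross, and no three edges meet in one point. -/
structure IsDrawing (E : List Seg) : Prop where
  nodup : E.Nodup
  loopless : ∀ e ∈ E, e.1 ≠ e.2
  no_parallel : ∀ e ∈ E, e.swap ∉ E
  connected : (graph E).Connected
  no_vertex : ∀ e ∈ E, ∀ p, IsVertex E p → pt p ∉ curve e
  cross_once : ∀ e ∈ E, ∀ f ∈ E, e ≠ f → (curve e ∩ curve f).Subsingleton
  adjacent : ∀ e ∈ E, ∀ f ∈ E, e ≠ f → (∃ p, IsEnd p e ∧ IsEnd p f) → curve e ∩ curve f = ∅
  no_triple : ∀ e ∈ E, ∀ f ∈ E, ∀ g ∈ E, e ≠ f → e ≠ g → f ≠ g →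
    curve e ∩ curve f ∩ curve g = ∅

/-- The edges `f` and `g` cross the edge `e` in two consecutive crossings `x`, `y` of `e`. -/
def Consec (E : List Seg) (e f g : Seg) : Prop :=
  e ∈ E ∧ f ∈ E ∧ g ∈ E ∧ f ≠ e ∧ g ≠ e ∧ f ≠ g ∧
    ∃ x ∈ curve e ∩ curve f, ∃ y ∈ curve e ∩ curve g,
      ∀ h ∈ E, h ≠ e → curve e ∩ curve h ∩ openSegment ℝ x y = ∅

/-- The total number of switches of the casing given by the stacking order `σ` (at a crossing of
`e` and `f`, the edge with the larger value of `σ` is the bridge). A switch on `e` is a pair of
consecutive crossings of `e`, at exactly one of which `e` is the bridge; it is counted once, with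
`f` the edge crossing above `e` and `g` the edge crossing below `e`. -/
noncomputable def switches (E : List Seg) (σ : Seg → ℕ) : ℕ :=
  Nat.card {t : Seg × Seg × Seg // Consec E t.1 t.2.1 t.2.2 ∧ σ t.1 < σ t.2.1 ∧ σ t.2.2 < σ t.1}

/-- The decision version of `MaxTotalSwitches` in the stacking model, for straight-line drawings:
an instance is a drawing together with a number `K`; the question is whether some linear order of
the edges gives a casing with at least `K` switches. -/
def StackedSwitches : Set (List Seg × ℕ) :=
  {I | IsDrawing I.1 ∧ ∃ σ : Seg → ℕ, Set.InjOn σ {e | e ∈ I.1} ∧ I.2 ≤ switches I.1 σ}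

end Pool.Agent.H54.Sw
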