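import Pool.Agent.H54.Sw.Comb

/-!
# The list of edges
-/

namespace Pool.Agent.H54.Sw

open Finset

namespace Data

variable (G : Data)

/-- lines -/
def lns (d : Bool) : List Seg := (List.range G.N).map (fun i => G.grid.L d (i + 1))

open Classical in
/-- dummies -/
noncomputable def dms (d : Bool) : List Seg :=
  (List.range G.N).flatMap (fun i => (List.range (G.N - 1)).flatMap (fun j =>
    if ¬ G.grid.miss (!d) (i + 1) (j + 1) then [Grid.D (!d) (i + 1) (j + 1)] else []))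

/-- the frame -/
def frm (d : Bool) : List Seg := (List.range (2 * G.N)).map (fun m => sg d 1 (m + 1) (m + 2))

/-- all edges in direction `d` -/
noncomputable def part (d : Bool) : List Seg := G.lns d ++ G.dms d ++ G.frm d

/-- all edges -/
noncomputable def edges : List Seg := G.part true ++ G.part false

theorem mem_lns {d : Bool} {e : Seg} : e ∈ G.lns d ↔ ∃ i, 1 ≤ i ∧ i ≤ G.N ∧ e = G.grid.L d i := by
  simp only [lns, List.mem_map, List.mem_range]
  constructor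
  · rintro ⟨i, h, rfl⟩
    exact ⟨i + 1, by omega, by omega, rfl⟩
  · rintro ⟨i, h1, h2, rfl⟩
    exact ⟨i - 1, by omega, by rw [Nat.sub_add_cancel h1]⟩

omit G in
theorem mem_ifs {p : Prop} [Decidable p] {a e : Seg} :
    e ∈ (if ¬ p then [a] else []) ↔ ¬ p ∧ e = a := by
  by_cases h : p <;> simp [h]

theorem mem_dms {d : Bool} {e : Seg} : e ∈ G.dms d ↔
    ∃ i j, 1 ≤ i ∧ i ≤ G.N ∧ 1 ≤ j ∧ j < G.N ∧ ¬ G.grid.miss (!d) i j ∧
      e = Grid.D (!d) i j := by
  classical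
  simp only [dms, List.mem_flatMap, List.mem_range]
  constructor
  · rintro ⟨i, hi, j, hj, he⟩
    obtain ⟨hm, he⟩ := mem_ifs.1 he
    exact ⟨i + 1, j + 1, by omega, by omega, by omega, by omega, hm, he⟩
  · rintro ⟨i, j, h1, h2, h3, h4, h5, rfl⟩
    refine ⟨i - 1, by omega, j - 1, by omega, ?_⟩
    rw [Nat.sub_add_cancel h1, Nat.sub_add_cancel h3]
    exact mem_ifs.2 ⟨h5, rfl⟩

theorem mem_frm {d : Bool} {e : Seg} : e ∈ G.frm d ↔
    ∃ m, 1 ≤ m ∧ m ≤ 2 * G.N ∧ e = sg d 1 m (m + 1) := by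
  simp only [frm, List.mem_map, List.mem_range]
  constructor
  · rintro ⟨i, h, rfl⟩
    exact ⟨i + 1, by omega, by omega, rfl⟩
  · rintro ⟨i, h1, h2, rfl⟩
    refine ⟨i - 1, by omega, ?_⟩
    rw [Nat.sub_add_cancel h1]
    congr 1
    omega

theorem mem_part {d : Bool} {e : Seg} : e ∈ G.part d ↔
    ∃ x y1 y2, G.grid.EV d x y1 y2 ∧ e = sg d x y1 y2 := by
  simp only [part, List.mem_append, mem_lns, mem_dms, mem_frm]
  constructor
  · rintro ((⟨i, h1, h2, rfl⟩ | ⟨i, j, h1, h2, h3, h4, h5, rfl⟩) | ⟨m, h1, h2, rfl⟩)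
    · exact ⟨_, _, _, Or.inl ⟨i, h1, h2, rfl, rfl, rfl⟩, rfl⟩
    · refine ⟨_, _, _, Or.inr (Or.inl ⟨i, j, h1, h2, h3, h4, h5, rfl, rfl, rfl⟩), ?_⟩
      unfold Grid.D
      rw [Bool.not_not]
    · exact ⟨_, _, _, Or.inr (Or.inr ⟨rfl, h1, h2, rfl⟩), rfl⟩
  · rintro ⟨x, y1, y2, h, rfl⟩
    rcases h with ⟨i, h1, h2, rfl, rfl, rfl⟩ | ⟨i, j, h1, h2, h3, h4, h5, rfl, rfl, rfl⟩ |
      ⟨rfl, h1, h2, rfl⟩
    · exact Or.inl (Or.inl ⟨i, h1, h2, rfl⟩)
    · refine Or.inl (Or.inr ⟨i, j, h1, h2, h3, h4, h5, ?_⟩)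
      unfold Grid.D
      rw [Bool.not_not]
    · exact Or.inr ⟨_, h1, h2, rfl⟩

theorem mem_edges (e : Seg) : e ∈ G.edges ↔ G.grid.IsE e := by
  simp only [edges, List.mem_append, mem_part, Grid.IsE]
  constructor
  · rintro (⟨x, y1, y2, h1, h2⟩ | ⟨x, y1, y2, h1, h2⟩)
    · exact ⟨_, x, y1, y2, h1, h2⟩
    · exact ⟨_, x, y1, y2, h1, h2⟩
  · rintro ⟨b, x, y1, y2, h1, h2⟩
    cases b
    · exact Or.inr ⟨x, y1, y2, h1, h2⟩
    · exact Or.inl ⟨x, y1, y2, h1, h2⟩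

theorem sg_ne {b b' : Bool} {x y1 y2 x' y1' y2' : ℕ} (h : y1 < y2) (h' : y1' < y2')
    (hne : b ≠ b' ∨ x ≠ x' ∨ y1 ≠ y1') : sg b x y1 y2 ≠ sg b' x' y1' y2' := by
  intro e
  obtain ⟨h1, h2, h3, _⟩ := sg_inj h h' e
  rcases hne with h4 | h4 | h4
  · exact h4 h1
  · exact h4 h2
  · exact h4 h3

theorem nodup_part (d : Bool) : (G.part d).Nodup := by
  classical
  have hN := G.N_ge
  have hN' := G.grid.hN
  unfold part
  rw [List.nodup_append, List.nodup_append]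
  refine ⟨⟨?_, ?_, ?_⟩, ?_, ?_⟩
  · unfold lns
    refine List.Nodup.map_on (fun i _ j _ h => ?_) List.nodup_range
    have := (Grid.L_inj h).2
    omega
  · unfold dms
    rw [List.nodup_flatMap]
    refine ⟨fun i _ => ?_, ?_⟩
    · rw [List.nodup_flatMap]
      refine ⟨fun j _ => ?_, ?_⟩
      · split_ifs <;> simp
      · refine List.nodup_range.imp ?_
        intro j j' hjj e h1 h2
        obtain ⟨_, h1⟩ := mem_ifs.1 h1
        obtain ⟨_, h2⟩ := mem_ifs.1 h2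
        rw [h1] at h2
        exact sg_ne (by omega) (by omega) (Or.inr (Or.inl (by omega))) h2
    · refine List.nodup_range.imp ?_
      intro i i' hii e h1 h2
      rw [List.mem_flatMap] at h1 h2
      obtain ⟨j, _, h1⟩ := h1
      obtain ⟨j', _, h2⟩ := h2
      obtain ⟨_, h1⟩ := mem_ifs.1 h1
      obtain ⟨_, h2⟩ := mem_ifs.1 h2
      rw [h1] at h2
      exact sg_ne (by omega) (by omega) (Or.inr (Or.inr (by omega))) h2
  · intro e h1 f h2 hef
    subst hef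
    obtain ⟨i, _, _, h3⟩ := (G.mem_lns).1 h1
    obtain ⟨i', j', g1, _, _, _, _, h4⟩ := (G.mem_dms).1 h2
    rw [h3] at h4
    exact sg_ne (by omega) (by omega) (Or.inr (Or.inl (by omega))) h4
  · unfold frm
    refine List.Nodup.map_on (fun i _ j _ h => ?_) List.nodup_range
    by_contra hne
    exact sg_ne (by omega) (by omega) (Or.inr (Or.inr (by omega))) h
  · intro e h1 f h2 hef
    subst hef
    obtain ⟨m, _, _, h4⟩ := (G.mem_frm).1 h2
    rw [List.mem_append] at h1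
    rcases h1 with h1 | h1
    · obtain ⟨i, _, _, h3⟩ := (G.mem_lns).1 h1
      rw [h3] at h4
      exact sg_ne (by omega) (by omega) (Or.inr (Or.inl (by omega))) h4
    · obtain ⟨i', j', g1, _, g2, _, _, h3⟩ := (G.mem_dms).1 h1
      rw [h3] at h4
      exact sg_ne (by omega) (by omega) (Or.inr (Or.inl (by omega))) h4

theorem nodup_edges : G.edges.Nodup := by
  unfold edges
  rw [List.nodup_append]
  refine ⟨G.nodup_part true, G.nodup_part false, ?_⟩
  intro e h1 f h2 hef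
  subst hef
  obtain ⟨x, y1, y2, h3, h4⟩ := (G.mem_part).1 h1
  obtain ⟨x', y1', y2', h5, h6⟩ := (G.mem_part).1 h2
  rw [h4] at h6
  exact sg_ne h3.lt h5.lt (Or.inl (by decide)) h6

/-- the reduction is correct -/
theorem edges_mem {k : ℕ} (hk : k ≤ G.n) :
    (G.edges, G.MX - (2 * G.nn + 4 * k)) ∈ StackedSwitches ↔
      ∃ S : Finset ℕ, G.IsCover S ∧ S.card ≤ k :=
  mem_stackedSwitches G.mem_edges G.nodup_edges hk

end Data

end Pool.Agent.H54.Sw
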