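import Pool.Agent.H54.Sw.Defs
import Pool.Agent.H54.Sw.Core

/-!
# Geometry of the grid drawing
-/

namespace Pool.Agent.H54.Sw

open Finset

/-- a segment in the direction `b` (`true`: vertical), at `x`, from `y1` to `y2` -/
def sg (b : Bool) (x y1 y2 : ℕ) : Seg := if b then ((x, y1), (x, y2)) else ((y1, x), (y2, x))

/-- the coordinate which is constant on segments in the direction `b` -/
def co (b : Bool) (q : ℝ × ℝ) : ℝ := if b then q.1 else q.2

theorem co_ext {b : Bool} {q r : ℝ × ℝ} (h1 : co b q = co b r) (h2 : co (!b) q = co (!b) r) :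
    q = r := by
  cases b
  · simp only [co, Bool.not_false, Bool.false_eq_true, if_true, if_false] at h1 h2
    exact Prod.ext h2 h1
  · simp only [co, Bool.not_true, Bool.false_eq_true, if_true, if_false] at h1 h2
    exact Prod.ext h1 h2

theorem mem_openSegment_co {b : Bool} {q q' r : ℝ × ℝ} (h : co b q = co b q') :
    r ∈ openSegment ℝ q q' ↔
      co b r = co b q ∧ co (!b) r ∈ openSegment ℝ (co (!b) q) (co (!b) q') := by
  obtain ⟨q1, q2⟩ := q
  obtain ⟨q1', q2'⟩ := q'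
  obtain ⟨r1, r2⟩ := r
  cases b
  · simp only [co, Bool.not_false, Bool.false_eq_true, if_true, if_false] at h ⊢
    subst h
    rw [← Prod.image_mk_openSegment_left]
    constructor
    · rintro ⟨x, hx, hx2⟩
      simp only [Prod.mk.injEq] at hx2
      obtain ⟨rfl, rfl⟩ := hx2
      exact ⟨rfl, hx⟩
    · rintro ⟨rfl, h2⟩
      exact ⟨r1, h2, rfl⟩
  · simp only [co, Bool.not_true, Bool.false_eq_true, if_true, if_false] at h ⊢
    subst h
    rw [← Prod.image_mk_openSegment_right]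
    constructor
    · rintro ⟨x, hx, hx2⟩
      simp only [Prod.mk.injEq] at hx2
      obtain ⟨rfl, rfl⟩ := hx2
      exact ⟨rfl, hx⟩
    · rintro ⟨rfl, h2⟩
      exact ⟨r2, h2, rfl⟩

theorem mem_curve_sg {b : Bool} {x y1 y2 : ℕ} (h : y1 < y2) (q : ℝ × ℝ) :
    q ∈ curve (sg b x y1 y2) ↔ co b q = x ∧ (y1 : ℝ) < co (!b) q ∧ co (!b) q < (y2 : ℝ) := by
  have h' : (y1 : ℝ) < (y2 : ℝ) := by exact_mod_cast h
  unfold curve
  have e1 : co b (pt (sg b x y1 y2).1) = x := by cases b <;> simp [co, pt, sg]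
  have e2 : co b (pt (sg b x y1 y2).2) = x := by cases b <;> simp [co, pt, sg]
  have e3 : co (!b) (pt (sg b x y1 y2).1) = y1 := by cases b <;> simp [co, pt, sg]
  have e4 : co (!b) (pt (sg b x y1 y2).2) = y2 := by cases b <;> simp [co, pt, sg]
  rw [mem_openSegment_co (e1.trans e2.symm), e1, e3, e4, openSegment_eq_Ioo h', Set.mem_Ioo]

theorem sg_inj {b b' : Bool} {x y1 y2 x' y1' y2' : ℕ} (h : y1 < y2) (h' : y1' < y2')
    (e : sg b x y1 y2 = sg b' x' y1' y2') : b = b' ∧ x = x' ∧ y1 = y1' ∧ y2 = y2' := by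
  cases b <;> cases b' <;> simp only [sg, if_true, if_false, Prod.mk.injEq, Bool.false_eq_true] at e <;>
    refine ⟨?_, ?_, ?_, ?_⟩ <;> first | rfl | omega

/-- crossings of segments in different directions -/
theorem mem_cross {b : Bool} {x y1 y2 x' y1' y2' : ℕ} (h : y1 < y2) (h' : y1' < y2')
    (q : ℝ × ℝ) : q ∈ curve (sg b x y1 y2) ∩ curve (sg (!b) x' y1' y2') ↔
      co b q = x ∧ co (!b) q = x' ∧ y1 < x' ∧ x' < y2 ∧ y1' < x ∧ x < y2' := by
  rw [Set.mem_inter_iff, mem_curve_sg h, mem_curve_sg h', Bool.not_not]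
  constructor
  · rintro ⟨⟨h1, h2, h3⟩, h4, h5, h6⟩
    rw [h4] at h2 h3
    rw [h1] at h5 h6
    exact ⟨h1, h4, by exact_mod_cast h2, by exact_mod_cast h3, by exact_mod_cast h5,
      by exact_mod_cast h6⟩
  · rintro ⟨h1, h2, h3, h4, h5, h6⟩
    rw [h1, h2]
    exact ⟨⟨rfl, by exact_mod_cast h3, by exact_mod_cast h4⟩, rfl, by exact_mod_cast h5,
      by exact_mod_cast h6⟩

/-- the point with given coordinates -/
def mkp (b : Bool) (x y : ℝ) : ℝ × ℝ := if b then (x, y) else (y, x)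

theorem co_mkp (b : Bool) (x y : ℝ) : co b (mkp b x y) = x := by cases b <;> simp [co, mkp]
theorem co_not_mkp (b : Bool) (x y : ℝ) : co (!b) (mkp b x y) = y := by cases b <;> simp [co, mkp]

/-- data of a grid drawing: number of lines, missing dummies -/
structure Grid where
  N : ℕ
  hN : 2 ≤ N
  miss : Bool → ℕ → ℕ → Prop

namespace Grid

variable (K : Grid)

/-- long lines -/
def L (b : Bool) (i : ℕ) : Seg := sg b (2 * i) 1 (2 * K.N + 1)

/-- the dummy edge crossing the line `L b i` between the lines `j` and `j + 1` -/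
def D (b : Bool) (i j : ℕ) : Seg := sg (!b) (2 * j + 1) (2 * i - 1) (2 * i + 1)

/-- the edges -/
def EV (b : Bool) (x y1 y2 : ℕ) : Prop :=
  (∃ i, 1 ≤ i ∧ i ≤ K.N ∧ x = 2 * i ∧ y1 = 1 ∧ y2 = 2 * K.N + 1) ∨
  (∃ i j, 1 ≤ i ∧ i ≤ K.N ∧ 1 ≤ j ∧ j < K.N ∧ ¬ K.miss (!b) i j ∧ x = 2 * j + 1 ∧
    y1 = 2 * i - 1 ∧ y2 = 2 * i + 1) ∨
  (x = 1 ∧ 1 ≤ y1 ∧ y1 ≤ 2 * K.N ∧ y2 = y1 + 1)

/-- the edges of the drawing -/
def IsE (e : Seg) : Prop := ∃ b x y1 y2, K.EV b x y1 y2 ∧ e = sg b x y1 y2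

variable {K}

theorem EV.lt {b : Bool} {x y1 y2 : ℕ} (h : K.EV b x y1 y2) : y1 < y2 := by
  rcases h with ⟨i, h1, h2, h3, h4, h5⟩ | ⟨i, j, h1, h2, h3, h4, _, h5, h6, h7⟩ | ⟨h1, h2, h3, h4⟩ <;>
    omega

theorem EV.disj {b : Bool} {x y1 y2 x' y1' y2' : ℕ} (h : K.EV b x y1 y2)
    (h' : K.EV b x' y1' y2') (hne : ¬ (x = x' ∧ y1 = y1' ∧ y2 = y2')) :
    x ≠ x' ∨ y2 ≤ y1' ∨ y2' ≤ y1 := by
  rcases h with ⟨i, h1, h2, h3, h4, h5⟩ | ⟨i, j, h1, h2, h3, h4, _, h5, h6, h7⟩ | ⟨h1, h2, h3, h4⟩ <;>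
  rcases h' with ⟨i', h1', h2', h3', h4', h5'⟩ | ⟨i', j', h1', h2', h3', h4', _, h5', h6', h7'⟩ |
    ⟨h1', h2', h3', h4'⟩ <;> omega

/-- edges in the same direction do not meet -/
theorem EV.same_empty {b : Bool} {x y1 y2 x' y1' y2' : ℕ} (h : K.EV b x y1 y2)
    (h' : K.EV b x' y1' y2') (hne : sg b x y1 y2 ≠ sg b x' y1' y2') :
    curve (sg b x y1 y2) ∩ curve (sg b x' y1' y2') = ∅ := by
  rw [Set.eq_empty_iff_forall_notMem]
  rintro q ⟨h1, h2⟩
  rw [mem_curve_sg h.lt] at h1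
  rw [mem_curve_sg h'.lt] at h2
  have hne' : ¬ (x = x' ∧ y1 = y1' ∧ y2 = y2') := by
    rintro ⟨rfl, rfl, rfl⟩
    exact hne rfl
  rcases h.disj h' hne' with h3 | h3 | h3
  · apply h3
    have := h1.1.symm.trans h2.1
    exact_mod_cast this
  · have h4 : ((y2 : ℕ) : ℝ) ≤ ((y1' : ℕ) : ℝ) := by exact_mod_cast h3
    linarith [h1.2.2, h2.2.1]
  · have h4 : ((y2' : ℕ) : ℝ) ≤ ((y1 : ℕ) : ℝ) := by exact_mod_cast h3
    linarith [h2.2.2, h1.2.1]

/-- no edge passes through a vertex -/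
theorem EV.no_vertex {b b' : Bool} {x y1 y2 x' y1' y2' y : ℕ} (h : K.EV b x y1 y2)
    (h' : K.EV b' x' y1' y2') (hy : y = y1 ∨ y = y2) (p : Pt)
    (hp : p = if b then (x, y) else (y, x)) : pt p ∉ curve (sg b' x' y1' y2') := by
  rw [mem_curve_sg h'.lt]
  rintro ⟨h1, h2, h3⟩
  by_cases hb : b' = b
  · subst hb
    have e1 : co b' (pt p) = x := by rw [hp]; cases b' <;> simp [co, pt]
    have e2 : co (!b') (pt p) = y := by rw [hp]; cases b' <;> simp [co, pt]
    rw [e1] at h1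
    rw [e2] at h2 h3
    have h1 : x = x' := by exact_mod_cast h1
    have h2 : y1' < y := by exact_mod_cast h2
    have h3 : y < y2' := by exact_mod_cast h3
    rcases h with ⟨i, g1, g2, g3, g4, g5⟩ | ⟨i, j, g1, g2, g3, g4, _, g5, g6, g7⟩ |
      ⟨g1, g2, g3, g4⟩ <;>
    rcases h' with ⟨i', g1', g2', g3', g4', g5'⟩ |
      ⟨i', j', g1', g2', g3', g4', _, g5', g6', g7'⟩ | ⟨g1', g2', g3', g4'⟩ <;> omega
  · have hb' : b' = !b := by cases b <;> cases b' <;> simp_all
    subst hb'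
    have e1 : co (!b) (pt p) = y := by rw [hp]; cases b <;> simp [co, pt]
    have e2 : co (!!b) (pt p) = x := by rw [hp]; cases b <;> simp [co, pt]
    rw [e1] at h1
    rw [e2] at h2 h3
    have h1 : y = x' := by exact_mod_cast h1
    have h2 : y1' < x := by exact_mod_cast h2
    have h3 : x < y2' := by exact_mod_cast h3
    rcases h with ⟨i, g1, g2, g3, g4, g5⟩ | ⟨i, j, g1, g2, g3, g4, _, g5, g6, g7⟩ |
      ⟨g1, g2, g3, g4⟩ <;>
    rcases h' with ⟨i', g1', g2', g3', g4', g5'⟩ |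
      ⟨i', j', g1', g2', g3', g4', _, g5', g6', g7'⟩ | ⟨g1', g2', g3', g4'⟩ <;> omega

theorem end_sg {b : Bool} {x y1 y2 : ℕ} {p : Pt} (h : IsEnd p (sg b x y1 y2)) :
    ∃ y, (y = y1 ∨ y = y2) ∧ p = if b then (x, y) else (y, x) := by
  rcases h with h | h
  · exact ⟨y1, Or.inl rfl, by rw [h]; cases b <;> simp [sg]⟩
  · exact ⟨y2, Or.inr rfl, by rw [h]; cases b <;> simp [sg]⟩

section drawing

variable {E : List Seg} (hE : ∀ e, e ∈ E ↔ K.IsE e)

include hE

theorem drawing_of_connected (hnd : E.Nodup) (hconn : (graph E).Connected) : IsDrawing E := by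
  refine ⟨hnd, ?_, ?_, hconn, ?_, ?_, ?_, ?_⟩
  · intro e he
    obtain ⟨b, x, y1, y2, h1, rfl⟩ := (hE e).1 he
    have := h1.lt
    cases b <;> simp [sg] <;> omega
  · intro e he he'
    obtain ⟨b, x, y1, y2, h1, rfl⟩ := (hE e).1 he
    obtain ⟨b', x', y1', y2', h2, h3⟩ := (hE _).1 he'
    have h4 := h1.lt
    have h5 := h2.lt
    cases b <;> cases b' <;>
      simp only [sg, if_true, if_false, Prod.swap, Prod.mk.injEq, Bool.false_eq_true] at h3 <;> omega
  · rintro e he p ⟨f, hf, hp⟩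
    obtain ⟨b, x, y1, y2, h1, rfl⟩ := (hE e).1 he
    obtain ⟨b', x', y1', y2', h2, rfl⟩ := (hE _).1 hf
    obtain ⟨y, hy, hp'⟩ := end_sg hp
    exact h2.no_vertex h1 hy p hp'
  · intro e he f hf hef
    obtain ⟨b, x, y1, y2, h1, rfl⟩ := (hE e).1 he
    obtain ⟨b', x', y1', y2', h2, rfl⟩ := (hE _).1 hf
    by_cases hb : b' = b
    · subst hb
      rw [h1.same_empty h2 hef]
      exact Set.subsingleton_empty
    · have hb' : b' = !b := by cases b <;> cases b' <;> simp_all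
      subst hb'
      intro q hq r hr
      rw [mem_cross h1.lt h2.lt] at hq hr
      exact co_ext (hq.1.trans hr.1.symm) (hq.2.1.trans hr.2.1.symm)
  · rintro e he f hf hef ⟨p, hpe, hpf⟩
    obtain ⟨b, x, y1, y2, h1, rfl⟩ := (hE e).1 he
    obtain ⟨b', x', y1', y2', h2, rfl⟩ := (hE _).1 hf
    by_cases hb : b' = b
    · subst hb
      exact h1.same_empty h2 hef
    · have hb' : b' = !b := by cases b <;> cases b' <;> simp_all
      subst hb'
      rw [Set.eq_empty_iff_forall_notMem]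
      intro q hq
      rw [mem_cross h1.lt h2.lt] at hq
      obtain ⟨y, hy, hp⟩ := end_sg hpe
      obtain ⟨y', hy', hp'⟩ := end_sg hpf
      rw [hp] at hp'
      have : y = x' ∧ x = y' := by
        cases b <;> simp only [Bool.not_false, Bool.not_true, if_true, if_false, Prod.mk.injEq,
          Bool.false_eq_true] at hp' <;> omega
      omega
  · intro e he f hf g hg hef heg hfg
    obtain ⟨b, x, y1, y2, h1, rfl⟩ := (hE e).1 he
    obtain ⟨b', x', y1', y2', h2, rfl⟩ := (hE _).1 hf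
    obtain ⟨b'', x'', y1'', y2'', h3, rfl⟩ := (hE _).1 hg
    rw [Set.eq_empty_iff_forall_notMem]
    rintro q ⟨⟨hq1, hq2⟩, hq3⟩
    by_cases hb : b' = b
    · subst hb
      have := h1.same_empty h2 hef
      rw [Set.eq_empty_iff_forall_notMem] at this
      exact this q ⟨hq1, hq2⟩
    · by_cases hb2 : b'' = b
      · subst hb2
        have := h1.same_empty h3 heg
        rw [Set.eq_empty_iff_forall_notMem] at this
        exact this q ⟨hq1, hq3⟩
      · have hb' : b'' = b' := by cases b <;> cases b' <;> cases b'' <;> simp_all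
        subst hb'
        have := h2.same_empty h3 hfg
        rw [Set.eq_empty_iff_forall_notMem] at this
        exact this q ⟨hq2, hq3⟩

/-- the point `(1,1)` is a vertex -/
theorem isVertex_one : IsVertex E (1, 1) := by
  refine ⟨sg true 1 1 2, (hE _).2 ⟨true, 1, 1, 2, Or.inr (Or.inr ⟨rfl, le_rfl, ?_, rfl⟩), rfl⟩,
    Or.inl rfl⟩
  have := K.hN
  omega

/-- a vertex which is joined to `(1,1)` -/
def Conn (p : Pt) : Prop :=
  ∃ hp : IsVertex E p, (graph E).Reachable ⟨(1, 1), isVertex_one hE⟩ ⟨p, hp⟩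

theorem conn_step {p q : Pt} (h : (p, q) ∈ E) : Conn hE p ↔ Conn hE q := by
  have hp : IsVertex E p := ⟨_, h, Or.inl rfl⟩
  have hq : IsVertex E q := ⟨_, h, Or.inr rfl⟩
  have hne : p ≠ q := by
    rintro rfl
    obtain ⟨b, x, y1, y2, h1, h2⟩ := (hE _).1 h
    have := h1.lt
    cases b <;> simp only [sg, if_true, if_false, Prod.ext_iff, Bool.false_eq_true] at h2 <;> omega
  have hadj : (graph E).Adj ⟨p, hp⟩ ⟨q, hq⟩ := by
    unfold graph
    rw [SimpleGraph.fromRel_adj]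
    exact ⟨fun h' => hne (congrArg Subtype.val h'), Or.inl h⟩
  constructor
  · rintro ⟨_, h1⟩
    exact ⟨hq, h1.trans hadj.reachable⟩
  · rintro ⟨_, h1⟩
    exact ⟨hp, h1.trans hadj.symm.reachable⟩

theorem conn_sg {b : Bool} {x y1 y2 : ℕ} (h : K.EV b x y1 y2) :
    Conn hE (if b then (x, y1) else (y1, x)) ↔ Conn hE (if b then (x, y2) else (y2, x)) := by
  apply conn_step hE
  rw [hE]
  refine ⟨b, x, y1, y2, h, ?_⟩
  cases b <;> simp [sg]

theorem conn_frame (b : Bool) (m : ℕ) (h1 : 1 ≤ m) (h2 : m ≤ 2 * K.N + 1) :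
    Conn hE (if b then (1, m) else (m, 1)) := by
  induction m, h1 using Nat.le_induction with
  | base =>
    have : Conn hE (1, 1) := ⟨isVertex_one hE, SimpleGraph.Reachable.refl _⟩
    cases b <;> simpa using this
  | succ m hm ih =>
    exact (conn_sg hE (b := b) (x := 1) (y1 := m) (y2 := m + 1)
      (Or.inr (Or.inr ⟨rfl, hm, by omega, rfl⟩))).1 (ih (by omega))

theorem conn_hub (hb1 : ∀ b j, ¬ K.miss b K.N j)
    (hnice : ∀ i j, K.miss true i j → K.miss false j i → i + 1 < K.N ∧ 2 ≤ j ∧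
      ¬ K.miss true (i + 1) j ∧ ¬ K.miss false j (i + 1) ∧ ¬ K.miss true (i + 1) (j - 1))
    (i j : ℕ) (hi : i ≤ K.N) (hj : j ≤ K.N) (hij : i < K.N ∨ j < K.N) :
    Conn hE (2 * i + 1, 2 * j + 1) := by
  -- moves
  have left : ∀ i j, 1 ≤ i → i ≤ K.N → 1 ≤ j → j < K.N → ¬ K.miss true i j →
      (Conn hE (2 * i - 1, 2 * j + 1) ↔ Conn hE (2 * i + 1, 2 * j + 1)) := by
    intro i j h1 h2 h3 h4 h5
    have := conn_sg hE (b := false) (x := 2 * j + 1) (y1 := 2 * i - 1) (y2 := 2 * i + 1)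
      (Or.inr (Or.inl ⟨i, j, h1, h2, h3, h4, h5, rfl, rfl, rfl⟩))
    simpa using this
  have down : ∀ i j, 1 ≤ i → i < K.N → 1 ≤ j → j ≤ K.N → ¬ K.miss false j i →
      (Conn hE (2 * i + 1, 2 * j - 1) ↔ Conn hE (2 * i + 1, 2 * j + 1)) := by
    intro i j h1 h2 h3 h4 h5
    have := conn_sg hE (b := true) (x := 2 * i + 1) (y1 := 2 * j - 1) (y2 := 2 * j + 1)
      (Or.inr (Or.inl ⟨j, i, h3, h4, h1, h2, h5, rfl, rfl, rfl⟩))
    simpa using this
  obtain ⟨m, hm⟩ : ∃ m, i + j = m := ⟨_, rfl⟩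
  induction m using Nat.strong_induction_on generalizing i j with
  | _ m ih =>
    rcases Nat.eq_zero_or_pos i with rfl | hi0
    · have := conn_frame hE true (2 * j + 1) (by omega) (by omega)
      simpa using this
    rcases Nat.eq_zero_or_pos j with rfl | hj0
    · have := conn_frame hE false (2 * i + 1) (by omega) (by omega)
      simpa using this
    by_cases c1 : j < K.N ∧ ¬ K.miss true i j
    · rw [← left i j hi0 hi hj0 c1.1 c1.2]
      have := ih (i - 1 + j) (by omega) (i - 1) j (by omega) hj (Or.inr c1.1) rfl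
      have e : 2 * (i - 1) + 1 = 2 * i - 1 := by omega
      rwa [e] at this
    by_cases c2 : i < K.N ∧ ¬ K.miss false j i
    · rw [← down i j hi0 c2.1 hj0 hj c2.2]
      have := ih (i + (j - 1)) (by omega) i (j - 1) hi (by omega) (Or.inl c2.1) rfl
      have e : 2 * (j - 1) + 1 = 2 * j - 1 := by omega
      rwa [e] at this
    -- both missing
    have hiN : i < K.N := by
      by_contra hcon
      have hiN : i = K.N := by omega
      have hjN : j < K.N := by omega
      subst hiN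
      exact c1 ⟨hjN, hb1 true j⟩
    have m2 : K.miss false j i := by
      by_contra hcon
      exact c2 ⟨hiN, hcon⟩
    have hjN : j < K.N := by
      by_contra hcon
      have hjN : j = K.N := by omega
      subst hjN
      exact hb1 false i m2
    have m1 : K.miss true i j := by
      by_contra hcon
      exact c1 ⟨hjN, hcon⟩
    obtain ⟨n1, n2, n3, n4, n5⟩ := hnice i j m1 m2
    have s1 := left (i + 1) j (by omega) (by omega) hj0 hjN n3
    have s2 := down (i + 1) j (by omega) n1 hj0 hj n4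
    have s3 := left (i + 1) (j - 1) (by omega) (by omega) (by omega) (by omega) n5
    have e1 : 2 * (i + 1) - 1 = 2 * i + 1 := by omega
    have e2 : 2 * (j - 1) + 1 = 2 * j - 1 := by omega
    rw [e1] at s1 s3
    rw [e2] at s3
    rw [s1, ← s2, ← s3]
    have := ih (i + (j - 1)) (by omega) i (j - 1) hi (by omega) (Or.inl hiN) rfl
    rwa [e2] at this

theorem connected (hb1 : ∀ b j, ¬ K.miss b K.N j)
    (hnice : ∀ i j, K.miss true i j → K.miss false j i → i + 1 < K.N ∧ 2 ≤ j ∧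
      ¬ K.miss true (i + 1) j ∧ ¬ K.miss false j (i + 1) ∧ ¬ K.miss true (i + 1) (j - 1)) :
    (graph E).Connected := by
  have hall : ∀ p, IsVertex E p → Conn hE p := by
    rintro p ⟨e, he, hp⟩
    obtain ⟨b, x, y1, y2, h1, rfl⟩ := (hE _).1 he
    have hboth : Conn hE (if b then (x, y1) else (y1, x)) := by
      rcases h1 with ⟨i, g1, g2, g3, g4, g5⟩ | ⟨i, j, g1, g2, g3, g4, _, g5, g6, g7⟩ |
        ⟨g1, g2, g3, g4⟩
      · have := conn_frame hE (!b) x (by omega) (by omega)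
        rw [g4]
        cases b <;> simpa using this
      · rw [g5, g6]
        have e : 2 * i - 1 = 2 * (i - 1) + 1 := by omega
        rw [e]
        cases b
        · simpa using conn_hub hE hb1 hnice (i - 1) j (by omega) (by omega) (by omega)
        · simpa using conn_hub hE hb1 hnice j (i - 1) (by omega) (by omega) (by omega)
      · rw [g1]
        exact conn_frame hE b y1 g2 (by omega)
    obtain ⟨y, hy, hp'⟩ := end_sg hp
    rw [hp']
    rcases hy with rfl | rfl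
    · exact hboth
    · exact (conn_sg hE h1).1 hboth
  have : Nonempty {p : Pt // IsVertex E p} := ⟨⟨(1, 1), isVertex_one hE⟩⟩
  refine SimpleGraph.Connected.mk fun p q => ?_
  obtain ⟨_, h1⟩ := hall p.1 p.2
  obtain ⟨_, h2⟩ := hall q.1 q.2
  exact h1.symm.trans h2

end drawing

end Grid

end Pool.Agent.H54.Sw
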