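import Pool.Agent.H54.Sw.Edges
import Pool.Agent.H54.PT.Sat3

/-!
# From 3-SAT to stacked drawings
-/

namespace Pool.Agent.H54.Sw

open Finset Pool.Agent.H54.PT

section

variable (nc : List Bool → ℕ) (lit : List Bool → ℕ → ℕ → ℕ)

/-- literal of the vertex `a` -/
def vl (x : List Bool) (a : ℕ) : ℕ := lit x (a / 3) (a % 3)

/-- adjacency of literal occurrences -/
def AdjP (x : List Bool) (a b : ℕ) : Prop :=
  a ≠ b ∧ (a / 3 = b / 3 ∨ (vl lit x a ≠ vl lit x b ∧ vl lit x a / 2 = vl lit x b / 2))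

open Classical in
/-- the graph of a formula -/
noncomputable def gr (x : List Bool) : Data where
  n := 3 * nc x
  adj := fun a b => decide (AdjP lit x a b)
  symm := fun a b => by
    rw [decide_eq_decide]
    unfold AdjP
    constructor
    · rintro ⟨h1, h2⟩
      refine ⟨h1.symm, ?_⟩
      rcases h2 with h2 | ⟨h2, h3⟩
      · exact Or.inl h2.symm
      · exact Or.inr ⟨h2.symm, h3.symm⟩
    · rintro ⟨h1, h2⟩
      refine ⟨h1.symm, ?_⟩
      rcases h2 with h2 | ⟨h2, h3⟩
      · exact Or.inl h2.symm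
      · exact Or.inr ⟨h2.symm, h3.symm⟩
  irrefl := fun a => by
    rw [decide_eq_false_iff_not]
    exact fun h => h.1 rfl
  w := 2 * (3 * nc x) * (3 * nc x) + 4 * (3 * nc x) + 3
  hw := le_rfl

theorem adj_iff (x : List Bool) (a b : ℕ) : (gr nc lit x).adj a b = true ↔ AdjP lit x a b := by
  simp [gr]

theorem adj_false_iff (x : List Bool) (a b : ℕ) :
    (gr nc lit x).adj a b = false ↔ ¬ AdjP lit x a b := by
  simp [gr]

/-- Vertex covers and satisfying assignments. -/
theorem cover_iff (x : List Bool) :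
    (∃ S : Finset ℕ, (gr nc lit x).IsCover S ∧ S.card ≤ 2 * nc x) ↔
      ∃ a : ℕ → Bool, ∀ j < nc x, ∃ l < 3, lsat a (lit x j l) := by
  classical
  constructor
  · rintro ⟨S, ⟨hS1, hS2⟩, hS3⟩
    have hS1 : S ⊆ Finset.range (3 * nc x) := hS1
    have hS2 : ∀ a < 3 * nc x, ∀ b < 3 * nc x, AdjP lit x a b → a ∈ S ∨ b ∈ S :=
      fun a ha b hb h => hS2 a ha b hb ((adj_iff nc lit x a b).2 h)
    set I := Finset.range (3 * nc x) \ S with hI
    have hmem : ∀ a, a ∈ I ↔ a < 3 * nc x ∧ a ∉ S := by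
      intro a
      rw [hI, Finset.mem_sdiff, Finset.mem_range]
    have hcard : nc x ≤ I.card := by
      rw [hI, Finset.card_sdiff_of_subset hS1, Finset.card_range]
      omega
    have hind : ∀ a ∈ I, ∀ b ∈ I, ¬ AdjP lit x a b := by
      intro a ha b hb h
      rw [hmem] at ha hb
      rcases hS2 a ha.1 b hb.1 h with h' | h'
      · exact ha.2 h'
      · exact hb.2 h'
    have hinj : Set.InjOn (fun a => a / 3) (I : Set ℕ) := by
      intro a ha b hb hab
      by_contra hne
      exact hind a ha b hb ⟨hne, Or.inl hab⟩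
    have himg : I.image (fun a => a / 3) = Finset.range (nc x) := by
      apply Finset.eq_of_subset_of_card_le
      · intro j hj
        rw [Finset.mem_image] at hj
        obtain ⟨a, ha, rfl⟩ := hj
        rw [hmem] at ha
        rw [Finset.mem_range]
        omega
      · rw [Finset.card_range, Finset.card_image_of_injOn hinj]
        exact hcard
    refine ⟨fun v => decide (∃ i ∈ I, vl lit x i = 2 * v + 1), fun j hj => ?_⟩
    have hj' : j ∈ I.image (fun a => a / 3) := by
      rw [himg, Finset.mem_range]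
      exact hj
    rw [Finset.mem_image] at hj'
    obtain ⟨i, hi, rfl⟩ := hj'
    refine ⟨i % 3, Nat.mod_lt _ (by omega), ?_⟩
    have hvl : lit x (i / 3) (i % 3) = vl lit x i := rfl
    rw [hvl]
    unfold lsat
    rcases Nat.mod_two_eq_zero_or_one (vl lit x i) with h2 | h2
    · rw [h2]
      simp only [zero_ne_one, decide_false, decide_eq_false_iff_not]
      rintro ⟨i', hi', h3⟩
      have hne : vl lit x i ≠ vl lit x i' := by omega
      refine hind i hi i' hi' ⟨fun h => hne (by rw [h]), Or.inr ⟨hne, by omega⟩⟩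
    · rw [h2]
      simp only [decide_true, decide_eq_true_eq]
      exact ⟨i, hi, by omega⟩
  · rintro ⟨a, ha⟩
    choose! l hl using ha
    set I := (Finset.range (nc x)).image (fun j => 3 * j + l j) with hI
    have hIc : I.card = nc x := by
      rw [hI, Finset.card_image_of_injOn, Finset.card_range]
      intro j hj j' hj' h
      have h1 := (hl j (by simpa using hj)).1
      have h2 := (hl j' (by simpa using hj')).1
      simp only at h
      omega
    have hIs : I ⊆ Finset.range (3 * nc x) := by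
      intro i hi
      rw [hI, Finset.mem_image] at hi
      obtain ⟨j, hj, rfl⟩ := hi
      rw [Finset.mem_range] at hj ⊢
      have h1 := (hl j hj).1
      omega
    have hsat : ∀ i ∈ I, lsat a (vl lit x i) ∧ i = 3 * (i / 3) + l (i / 3) := by
      intro i hi
      rw [hI, Finset.mem_image] at hi
      obtain ⟨j, hj, rfl⟩ := hi
      rw [Finset.mem_range] at hj
      have h1 := hl j hj
      have e1 : (3 * j + l j) / 3 = j := by omega
      have e2 : (3 * j + l j) % 3 = l j := by omega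
      unfold vl
      rw [e1, e2]
      exact ⟨h1.2, rfl⟩
    refine ⟨Finset.range (3 * nc x) \ I, ⟨Finset.sdiff_subset, ?_⟩, ?_⟩
    · intro b hb c hc hbc
      rw [adj_iff] at hbc
      by_contra hcon
      simp only [Finset.mem_sdiff, Finset.mem_range, not_or, not_and, not_not] at hcon
      obtain ⟨s1, s2⟩ := hsat b (hcon.1 hb)
      obtain ⟨s3, s4⟩ := hsat c (hcon.2 hc)
      obtain ⟨h1, h2 | ⟨h2, h3⟩⟩ := hbc
      · apply h1
        rw [s2, s4, h2]
      · apply h2
        unfold lsat at s1 s3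
        rw [h3] at s1
        rw [s1, decide_eq_decide] at s3
        omega
    · rw [Finset.card_sdiff_of_subset hIs, Finset.card_range, hIc]
      omega

theorem icc_sum (N : ℕ) (f : ℕ → ℕ) :
    ∑ i ∈ Finset.Icc 1 N, f i = ∑ i ∈ Finset.range N, f (i + 1) := by
  have : Finset.Icc 1 N = Finset.Ico 1 (N + 1) := by
    ext i
    simp only [Finset.mem_Icc, Finset.mem_Ico]
    omega
  rw [this, Finset.sum_Ico_eq_sum_range]
  simp only [Nat.add_sub_cancel, Nat.add_comm 1]

theorem ico_sum (N : ℕ) (f : ℕ → ℕ) :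
    ∑ i ∈ Finset.Ico 1 N, f i = ∑ i ∈ Finset.range (N - 1), f (i + 1) := by
  rw [Finset.sum_Ico_eq_sum_range]
  simp only [Nat.add_comm 1]

theorem MX_eq (G : Data) : G.MX =
    (∑ i ∈ Finset.range G.N, ∑ j ∈ Finset.range (G.N - 1), Grid.mx (G.missV (i + 1) (j + 1))) +
    ∑ i ∈ Finset.range G.N, ∑ j ∈ Finset.range (G.N - 1), Grid.mx (G.missH (j + 1) (i + 1)) := by
  unfold Data.MX
  rw [Fintype.sum_bool]
  simp only [icc_sum, ico_sum]
  rfl

variable {nc lit}

section comp

variable (hnc : Cp (fun x _ => nc x)) (hlit : Cp (fun x v => lit x (v 0) (v 1)))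

include hnc

theorem cp_n : Cp (fun x _ => 3 * nc x) := (Cp.const 3).mul hnc

theorem cp_w : Cp (fun x _ => 2 * (3 * nc x) * (3 * nc x) + 4 * (3 * nc x) + 3) :=
  ((((Cp.const 2).mul (cp_n hnc)).mul (cp_n hnc)).add ((Cp.const 4).mul (cp_n hnc))).add
    (Cp.const 3)

theorem cp_N (lit : List Bool → ℕ → ℕ → ℕ) : Cp (fun x _ => (gr nc lit x).N) :=
  ((cp_w hnc).mul (cp_n hnc).succ).sub (Cp.const 1)

theorem cp_c (lit : List Bool → ℕ → ℕ → ℕ) {e : Fn} (he : Cp e) :
    Cp (fun x v => (gr nc lit x).c (e x v)) :=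
  (cp_w hnc).mul he.succ

omit hnc in
include hlit in
theorem cp_vl {e : Fn} (he : Cp e) : Cp (fun x v => vl lit x (e x v)) :=
  Cp.comp2 (g := fun x a b => lit x a b) hlit (he.div (Cp.const 3)) (he.mod (Cp.const 3))

omit hnc in
include hlit in
theorem cq_adj {e f : Fn} (he : Cp e) (hf : Cp f) : Cq (fun x v => AdjP lit x (e x v) (f x v)) :=
  (Cq.ne he hf).and ((Cq.eq (he.div (Cp.const 3)) (hf.div (Cp.const 3))).or
    ((Cq.ne (cp_vl hlit he) (cp_vl hlit hf)).and
      (Cq.eq ((cp_vl hlit he).div (Cp.const 2)) ((cp_vl hlit hf).div (Cp.const 2)))))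

omit hnc in
include hlit in
theorem cq_nadj {e f : Fn} (he : Cp e) (hf : Cp f) :
    Cq (fun x v => (gr nc lit x).adj (e x v) (f x v) = false) :=
  (cq_adj hlit he hf).not.congr fun x _ => (adj_false_iff nc lit x _ _).symm

include hlit in
theorem cq_missV {e f : Fn} (he : Cp e) (hf : Cp f) :
    Cq (fun x v => (gr nc lit x).missV (e x v) (f x v)) := by
  refine Cq.comp2 (g := fun x i j => (gr nc lit x).missV i j) ?_ he hf
  refine Cq.ex' (cp_n hnc) (Cq.ex' (P := fun x v b => v 1 = (gr nc lit x).c (v 0) ∧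
    (v 2 = (gr nc lit x).c b ∨ v 2 + 1 = (gr nc lit x).c b) ∧
    (gr nc lit x).adj (v 0) b = false) (cp_n hnc) ?_)
  exact (Cq.eq (Cp.var 2) (cp_c hnc lit (Cp.var 1))).and
    (((Cq.eq (Cp.var 3) (cp_c hnc lit (Cp.var 0))).or
      (Cq.eq (Cp.var 3).succ (cp_c hnc lit (Cp.var 0)))).and
        (cq_nadj hlit (Cp.var 1) (Cp.var 0)))

theorem cq_missH (lit : List Bool → ℕ → ℕ → ℕ) {e f : Fn} (he : Cp e) (hf : Cp f) :
    Cq (fun x v => (gr nc lit x).missH (e x v) (f x v)) := by
  refine Cq.comp2 (g := fun x i j => (gr nc lit x).missH i j) ?_ he hf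
  refine Cq.ex' (P := fun x v a => v 1 = (gr nc lit x).c a ∧ (v 0 = (gr nc lit x).c a ∨
    v 0 + 1 = (gr nc lit x).c a)) (cp_n hnc) ?_
  exact (Cq.eq (Cp.var 2) (cp_c hnc lit (Cp.var 0))).and
    ((Cq.eq (Cp.var 1) (cp_c hnc lit (Cp.var 0))).or
      (Cq.eq (Cp.var 1).succ (cp_c hnc lit (Cp.var 0))))

include hlit in
theorem cp_MX : Cp (fun x _ => (gr nc lit x).MX) := by
  classical
  have h1 : Cp (fun x _ => ∑ i ∈ Finset.range (gr nc lit x).N,
      ∑ j ∈ Finset.range ((gr nc lit x).N - 1), Grid.mx ((gr nc lit x).missV (i + 1) (j + 1))) := by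
    refine Cp.sum' (cp_N hnc lit) (Cp.sum' ((cp_N hnc lit).sub (Cp.const 1)) ?_)
    exact Cp.ite (cq_missV hnc hlit (Cp.var 1).succ (Cp.var 0).succ) (Cp.const 1) (Cp.const 2)
  have h2 : Cp (fun x _ => ∑ i ∈ Finset.range (gr nc lit x).N,
      ∑ j ∈ Finset.range ((gr nc lit x).N - 1), Grid.mx ((gr nc lit x).missH (j + 1) (i + 1))) := by
    refine Cp.sum' (cp_N hnc lit) (Cp.sum' ((cp_N hnc lit).sub (Cp.const 1)) ?_)
    exact Cp.ite (cq_missH hnc lit (Cp.var 0).succ (Cp.var 1).succ) (Cp.const 1) (Cp.const 2)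
  exact (h1.add h2).congr fun x v => (MX_eq _).symm

include hlit in
theorem cp_nn : Cp (fun x _ => (gr nc lit x).nn) := by
  classical
  refine Cp.sum' (cp_n hnc) (Cp.sum' (cp_n hnc) ?_)
  exact @Cp.ite _ _ _ (fun _ _ => Classical.propDecidable _)
    ((Cq.ne (Cp.var 1) (Cp.var 0)).and (cq_nadj hlit (Cp.var 1) (Cp.var 0)))
    (Cp.const 1) (Cp.const 0)

omit hnc in
theorem de_sg (b : Bool) {e f g : Fn} (he : Cp e) (hf : Cp f) (hg : Cp g) :
    De (fun x v => sg b (e x v) (f x v) (g x v)) := by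
  cases b
  · exact ((De.nat hf).pair (De.nat he)).pair ((De.nat hg).pair (De.nat he))
  · exact ((De.nat he).pair (De.nat hf)).pair ((De.nat he).pair (De.nat hg))

include hlit in
theorem cq_miss (b : Bool) {e f : Fn} (he : Cp e) (hf : Cp f) :
    Cq (fun x v => (gr nc lit x).grid.miss b (e x v) (f x v)) := by
  cases b
  · exact cq_missH hnc lit hf he
  · exact cq_missV hnc hlit he hf

include hlit in
theorem de_part (d : Bool) : De (fun x _ => (gr nc lit x).part d) := by
  classical
  have hN := cp_N hnc lit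
  have h1 : De (fun x _ => (gr nc lit x).lns d) := by
    refine De.map hN ?_
    exact de_sg d ((Cp.const 2).mul (Cp.var 0).succ) (Cp.const 1) (((Cp.const 2).mul hN).succ)
  have h2 : De (fun x _ => (gr nc lit x).dms d) := by
    refine De.flatMap hN (De.flatMap (hN.sub (Cp.const 1)) ?_)
    refine De.ite (cq_miss hnc hlit (!d) (Cp.var 1).succ (Cp.var 0).succ).not ?_ De.nil
    exact (de_sg (!!d) (((Cp.const 2).mul (Cp.var 0).succ).succ)
      (((Cp.const 2).mul (Cp.var 1).succ).sub (Cp.const 1))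
      (((Cp.const 2).mul (Cp.var 1).succ).succ)).single
  have h3 : De (fun x _ => (gr nc lit x).frm d) := by
    refine De.map ((Cp.const 2).mul hN) ?_
    exact de_sg d (Cp.const 1) (Cp.var 0).succ ((Cp.var 0).add (Cp.const 2))
  exact (h1.append h2).append h3

/-- the reduction -/
noncomputable def red (nc : List Bool → ℕ) (lit : List Bool → ℕ → ℕ → ℕ) (x : List Bool) :
    List Seg × ℕ :=
  ((gr nc lit x).edges, (gr nc lit x).MX - (2 * (gr nc lit x).nn + 4 * (2 * nc x)))

include hlit in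
theorem de_red : De (fun x _ => red nc lit x) :=
  ((de_part hnc hlit true).append (de_part hnc hlit false)).pair
    (De.nat ((cp_MX hnc hlit).sub (((Cp.const 2).mul (cp_nn hnc hlit)).add
      ((Cp.const 4).mul ((Cp.const 2).mul hnc)))))

end comp

theorem red_mem (x : List Bool) : red nc lit x ∈ StackedSwitches ↔
    ∃ a : ℕ → Bool, ∀ j < nc x, ∃ l < 3, lsat a (lit x j l) := by
  rw [← cover_iff]
  exact (gr nc lit x).edges_mem (by change 2 * nc x ≤ 3 * nc x; omega)

theorem red_drawing (x : List Bool) : IsDrawing (red nc lit x).1 :=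
  Grid.drawing_of_connected (gr nc lit x).mem_edges (gr nc lit x).nodup_edges
    (Grid.connected (gr nc lit x).mem_edges (gr nc lit x).hb1 (gr nc lit x).hnice)

/-- the coordinates are small -/
theorem red_small (x : List Bool) : ∀ e ∈ (red nc lit x).1,
    e.1.1 ≤ (red nc lit x).1.length + 1 ∧ e.1.2 ≤ (red nc lit x).1.length + 1 ∧
    e.2.1 ≤ (red nc lit x).1.length + 1 ∧ e.2.2 ≤ (red nc lit x).1.length + 1 := by
  intro e he
  have hlen : 2 * (gr nc lit x).N ≤ (red nc lit x).1.length := by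
    simp only [red, Data.edges, Data.part, Data.lns, List.length_append, List.length_map,
      List.length_range]
    omega
  have he := ((gr nc lit x).mem_edges e).1 he
  obtain ⟨b, x', y1, y2, h, rfl⟩ := he
  have hN : (gr nc lit x).grid.N = (gr nc lit x).N := rfl
  have hb : x' ≤ 2 * (gr nc lit x).N + 1 ∧ y1 ≤ 2 * (gr nc lit x).N + 1 ∧
      y2 ≤ 2 * (gr nc lit x).N + 1 := by
    rcases h with ⟨i, h1, h2, h3, h4, h5⟩ | ⟨i, j, h1, h2, h3, h4, _, h5, h6, h7⟩ |
      ⟨h1, h2, h3, h4⟩ <;> omega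
  cases b
  · simp only [sg, Bool.false_eq_true, if_false]
    omega
  · simp only [sg, if_true]
    omega

end

end Pool.Agent.H54.Sw
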